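import Pool.Agent.H572R4.Stmts

/-! H572-PI, A1: classes given by a computable Boolean function on strings. -/

set_option autoImplicit false

namespace Pool.Agent.H572R4

open Pool.Agent.Helper446.Defs Pool.Agent.Helper446.CB Pool.Agent.Helper446.CB.Ix

theorem taskA1 : TaskA1 := by
  intro S
  constructor
  · rintro ⟨T, hT, rfl⟩
    rw [isPi01_iff]
    refine ⟨{σ | T σ = false}, ?_, ?_⟩
    · have h : ComputablePred (fun σ => σ ∈ {σ : List Bool | T σ = false}) := by
        refine ComputablePred.computable_iff.2 ⟨fun σ => !T σ, Primrec.not.to_comp.comp hT, ?_⟩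
        funext σ
        simp
      exact h.to_re
    · ext x
      simp only [Set.mem_setOf_eq, seg]
      constructor
      · intro h n
        rw [h n]
        simp
      · intro h n
        have := h n
        simpa using this
  · rintro ⟨T, hT, _, rfl⟩
    obtain ⟨f, hf, he⟩ := ComputablePred.computable_iff.1 hT
    refine ⟨f, hf, ?_⟩
    ext x
    simp only [Set.mem_setOf_eq]
    refine forall_congr' fun n => ?_
    exact iff_of_eq (congrFun he (seg x n))

end Pool.Agent.H572R4
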