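import Pool.Agent.H572R4.Stmts

set_option autoImplicit false

/-! Task B of H572-PI: a co-c.e. cohesive set. -/

namespace Pool.Agent.H449R3.PIB

open Nat.Partrec (Code)
open Nat.Partrec.Code

/-- bounded value of the `e`-th program -/
def val (e x s : ℕ) : ℕ := min s ((evaln s (Denumerable.ofNat Code e) x).getD 0)

/-- maximum of the first values -/
def hh (x s : ℕ) : ℕ → ℕ
  | 0 => val 0 x s
  | n + 1 => max (hh x s n) (val (n + 1) x s)

def H (x s : ℕ) : ℕ := hh x s x

theorem val_primrec {α : Type*} [Primcodable α] {f g h : α → ℕ} (hf : Primrec f) (hg : Primrec g)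
    (hh : Primrec h) : Primrec fun a => val (f a) (g a) (h a) := by
  refine Primrec.nat_min.comp hh (Primrec.option_getD.comp ?_ (Primrec.const 0))
  exact primrec_evaln.comp ((hh.pair ((Primrec.ofNat Code).comp hf)).pair hg)

theorem H_comp : Computable₂ H := by
  have h1 : Primrec fun p : ℕ × ℕ => hh p.1 p.2 p.1 := by
    have h2 := Primrec.nat_rec' (α := ℕ × ℕ) (β := ℕ) (f := fun p => p.1)
      (g := fun p => val 0 p.1 p.2)
      (h := fun p (q : ℕ × ℕ) => max q.2 (val (q.1 + 1) p.1 p.2)) Primrec.fst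
      (val_primrec (Primrec.const 0) Primrec.fst Primrec.snd)
      (Primrec.nat_max.comp (Primrec.snd.comp Primrec.snd)
        (val_primrec (Primrec.succ.comp (Primrec.fst.comp Primrec.snd))
          (Primrec.fst.comp Primrec.fst) (Primrec.snd.comp Primrec.fst)))
    refine h2.of_eq fun p => ?_
    have : ∀ n : ℕ, (Nat.rec (val 0 p.1 p.2)
        (fun n IH => max IH (val (n + 1) p.1 p.2)) n : ℕ) = hh p.1 p.2 n := by
      intro n
      induction n with
      | zero => rfl
      | succ n ih =>
        show max _ (val (n + 1) p.1 p.2) = max (hh p.1 p.2 n) _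
        rw [ih]
    exact this p.1
  exact h1.to_comp

theorem val_le (e x s : ℕ) : val e x s ≤ s := min_le_left _ _

theorem val_mono (e x s : ℕ) : val e x s ≤ val e x (s + 1) := by
  unfold val
  cases h : evaln s (Denumerable.ofNat Code e) x with
  | none => simp
  | some v =>
    have h2 : v ∈ evaln (s + 1) (Denumerable.ofNat Code e) x :=
      evaln_mono (Nat.le_succ s) (Option.mem_def.2 h)
    rw [Option.mem_def.1 h2]
    simp only [Option.getD_some]
    exact min_le_min (Nat.le_succ s) le_rfl

theorem val_bdd (e x : ℕ) : ∃ V, ∀ s, val e x s ≤ V := by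
  by_cases h : ∃ s v, evaln s (Denumerable.ofNat Code e) x = some v
  · obtain ⟨s0, v, hv⟩ := h
    refine ⟨v, fun s => ?_⟩
    unfold val
    cases h1 : evaln s (Denumerable.ofNat Code e) x with
    | none => simp
    | some w =>
      have e1 := evaln_sound (Option.mem_def.2 hv)
      have e2 := evaln_sound (Option.mem_def.2 h1)
      have := Part.mem_unique e2 e1
      rw [this]
      exact min_le_right _ _
  · refine ⟨0, fun s => ?_⟩
    unfold val
    cases h1 : evaln s (Denumerable.ofNat Code e) x with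
    | none => simp
    | some w => exact absurd ⟨s, w, h1⟩ h

theorem hh_le (x s n : ℕ) : hh x s n ≤ s := by
  induction n with
  | zero => exact val_le _ _ _
  | succ n ih => exact max_le ih (val_le _ _ _)

theorem hh_mono (x s n : ℕ) : hh x s n ≤ hh x (s + 1) n := by
  induction n with
  | zero => exact val_mono _ _ _
  | succ n ih => exact max_le_max ih (val_mono _ _ _)

theorem hh_bdd (x n : ℕ) : ∃ V, ∀ s, hh x s n ≤ V := by
  induction n with
  | zero => exact val_bdd 0 x
  | succ n ih =>
    obtain ⟨V, hV⟩ := ih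
    obtain ⟨W, hW⟩ := val_bdd (n + 1) x
    exact ⟨max V W, fun s => max_le_max (hV s) (hW s)⟩

theorem le_hh (x s n e : ℕ) (h : e ≤ n) : val e x s ≤ hh x s n := by
  induction n with
  | zero =>
    have : e = 0 := by omega
    subst this
    exact le_rfl
  | succ n ih =>
    rcases Nat.lt_or_ge n e with h1 | h1
    · have : e = n + 1 := by omega
      subst this
      exact le_max_right _ _
    · exact (ih h1).trans (le_max_left _ _)

theorem H_lim (x : ℕ) : ∃ s0, ∀ s, s0 ≤ s → H x s = H x s0 := by
  have hm : Monotone (H x) := monotone_nat_of_le_succ fun s => hh_mono x s x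
  obtain ⟨V, hV⟩ := hh_bdd x x
  have hfin : (Set.range (H x)).Finite :=
    (Set.finite_Iic V).subset (by rintro y ⟨s, rfl⟩; exact hV s)
  obtain ⟨m, ⟨s0, hs0⟩, hmax⟩ := hfin.exists_maximal ⟨H x 0, 0, rfl⟩
  refine ⟨s0, fun s hs => le_antisymm ?_ (hm hs)⟩
  rw [hs0]
  exact hmax ⟨s, rfl⟩ (by rw [← hs0]; exact hm hs)

theorem H_dom (f : ℕ → ℕ) (hf : Computable f) : ∃ n0, ∀ x, n0 ≤ x → ∃ s, f x ≤ H x s := by
  obtain ⟨c, hc⟩ := exists_code.1 (Partrec.nat_iff.1 hf.partrec)
  refine ⟨Encodable.encode c, fun x hx => ?_⟩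
  have h1 : f x ∈ eval c x := by rw [hc]; simp
  obtain ⟨k, hk⟩ := evaln_complete.1 h1
  refine ⟨max k (f x), le_trans ?_ (le_hh x _ x (Encodable.encode c) hx)⟩
  have h2 : f x ∈ evaln (max k (f x)) c x := evaln_mono (le_max_left _ _) hk
  unfold val
  rw [Denumerable.ofNat_encode, Option.mem_def.1 h2]
  simp

theorem taskB : Pool.Agent.H572R4.TaskB := by
  obtain ⟨C, h1, h2, h3, -⟩ := Pool.Agent.Helper446.Martin.exists_cohesive H H_comp
    (fun x s => hh_mono x s x) (fun x s => hh_le x s x) H_lim H_dom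
    (fun x s => ∀ t, s ≤ t → H x t = H x s) (fun _ _ h => h) (fun x => H_lim x)
  exact ⟨C, h1, h2, h3⟩

end Pool.Agent.H449R3.PIB
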