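import Pool.Agent.H572R4.Stmts

set_option autoImplicit false

/-! Task C1 of project H572-PI. -/

namespace Pool.Agent.H572R4

namespace C1H455

theorem cr_inter {R S : Set ℕ} (hR : CR R) (hS : CR S) : CR (R ∩ S) := by
  obtain ⟨f, hf, hfe⟩ := ComputablePred.computable_iff.mp hR
  obtain ⟨g, hg, hge⟩ := ComputablePred.computable_iff.mp hS
  refine ComputablePred.computable_iff.mpr ⟨fun n => f n && g n, ?_, ?_⟩
  · exact Primrec.and.to_comp.comp hf hg
  · funext n
    have h1 : (n ∈ R) = (f n = true) := congrFun hfe n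
    have h2 : (n ∈ S) = (g n = true) := congrFun hge n
    show (n ∈ R ∧ n ∈ S) = ((f n && g n) = true)
    rw [h1, h2, Bool.and_eq_true]

theorem cr_congr {R S : Set ℕ} (h : R = S) (hR : CR R) : CR S := h ▸ hR

end C1H455

theorem taskC1 : TaskC1 := by
  intro A k
  induction k with
  | zero =>
    intro R R' hR hR' hsub h hcon
    apply h
    refine C1H455.cr_congr ?_ (C1H455.cr_inter hR hcon)
    ext n
    constructor
    · rintro ⟨h1, -, h2⟩
      exact ⟨h1, h2⟩
    · rintro ⟨h1, h2⟩
      exact ⟨h1, hsub h1, h2⟩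
  | succ k ih =>
    intro R R' hR hR' hsub h
    refine ⟨fun hk => ?_, fun hk => ?_⟩
    · obtain ⟨R1, h1, h2, h3, h4⟩ := h.1 hk
      exact ⟨R1, h1, h2.trans hsub, h3, h4⟩
    · intro R1 R2 h1 h2 hd hu hA
      have hca : CR (R ∩ R1) := C1H455.cr_inter hR h1
      have hcb : CR (R ∩ R2) := C1H455.cr_inter hR h2
      have hdis : Disjoint (R ∩ R1) (R ∩ R2) :=
        hd.mono Set.inter_subset_right Set.inter_subset_right
      have hun : (R ∩ R1) ∪ (R ∩ R2) = R := by
        rw [← Set.inter_union_distrib_left, hu]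
        exact Set.inter_eq_left.mpr hsub
      have hcA : CR ((R ∩ R1) ∩ A (k + 1)) := by
        refine C1H455.cr_congr ?_ (C1H455.cr_inter hR hA)
        rw [Set.inter_assoc]
      have h5 := h.2 hk (R ∩ R1) (R ∩ R2) hca hcb hdis hun hcA
      exact ih (R ∩ R2) R2 hcb h2 Set.inter_subset_right h5

end Pool.Agent.H572R4
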