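import Pool.Agent.H572R4.Stmts

/-!
Task C10 of project H572-PI (proved by helper192 for helper572): the universal step.
-/

set_option autoImplicit false

namespace Pool.Agent.H572R4

namespace C10H192

open Pool.Agent.Helper446 Pool.Agent.Helper446.CB

theorem cr_inter {R S : Set ℕ} (h1 : CR R) (h2 : CR S) : CR (R ∩ S) := by
  obtain ⟨d1, h1⟩ := h1
  obtain ⟨d2, h2⟩ := h2
  refine ⟨fun a => @instDecidableAnd _ _ (d1 a) (d2 a), ?_⟩
  refine (Primrec.and.to_comp.comp h1 h2).of_eq fun a => ?_
  by_cases ha : a ∈ R <;> by_cases hb : a ∈ S <;> simp [ha, hb]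

theorem cr_compl {R : Set ℕ} (h1 : CR R) : CR Rᶜ := by
  have : ComputablePred fun n => ¬ (n ∈ R) := ComputablePred.not h1
  exact this

theorem cr_union {R S : Set ℕ} (h1 : CR R) (h2 : CR S) : CR (R ∪ S) := by
  have := cr_compl (cr_inter (cr_compl h1) (cr_compl h2))
  have e : (Rᶜ ∩ Sᶜ)ᶜ = R ∪ S := by
    rw [Set.compl_inter, compl_compl, compl_compl]
  rwa [e] at this

theorem cr_empty : CR (∅ : Set ℕ) := by
  have h : ComputablePred fun _ : ℕ => (0 : ℕ) = 1 :=
    RE.cp_eq (Computable.const 0) (Computable.const 1)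
  exact h.of_eq fun x => by simp

theorem cr_pre {R : Set ℕ} (h : CR R) {f : ℕ → ℕ} (hf : Computable f) : CR {x | f x ∈ R} :=
  RE.cp_comp (p := fun x => x ∈ R) h hf

theorem cr_eq {f : ℕ → ℕ} (hf : Computable f) (y : ℕ) : CR {x | f x = y} :=
  RE.cp_eq hf (Computable.const y)

theorem cr_low (C : Set ℕ) (m : ℕ) : CR {y | y < m ∧ y ∉ C} := by
  induction m with
  | zero =>
    have : {y : ℕ | y < 0 ∧ y ∉ C} = ∅ := by
      ext y
      simp
    rw [this]
    exact cr_empty
  | succ m ih =>
    by_cases hm : m ∈ C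
    · have : {y : ℕ | y < m + 1 ∧ y ∉ C} = {y | y < m ∧ y ∉ C} := by
        ext y
        simp only [Set.mem_setOf_eq]
        constructor
        · rintro ⟨h1, h2⟩
          refine ⟨?_, h2⟩
          rcases Nat.lt_succ_iff_lt_or_eq.1 h1 with h | h
          · exact h
          · subst h
            exact absurd hm h2
        · rintro ⟨h1, h2⟩
          exact ⟨by omega, h2⟩
      rw [this]
      exact ih
    · have : {y : ℕ | y < m + 1 ∧ y ∉ C} = {y | y < m ∧ y ∉ C} ∪ {y | y = m} := by
        ext y
        simp only [Set.mem_setOf_eq, Set.mem_union]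
        constructor
        · rintro ⟨h1, h2⟩
          rcases Nat.lt_succ_iff_lt_or_eq.1 h1 with h | h
          · exact Or.inl ⟨h, h2⟩
          · exact Or.inr h
        · rintro (⟨h1, h2⟩ | h1)
          · exact ⟨by omega, h2⟩
          · subst h1
            exact ⟨by omega, hm⟩
      rw [this]
      exact cr_union ih (cr_eq (f := fun y => y) Computable.id m)

/-- the second coordinate -/
def yy (x : ℕ) : ℕ := x.unpair.2.unpair.1

theorem yy_comp : Computable yy :=
  Computable.fst.comp (Computable.unpair.comp (Computable.snd.comp Computable.unpair))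

/-- recoding -/
def old (x : ℕ) : ℕ := Nat.pair (Nat.pair x.unpair.1 x.unpair.2.unpair.1) x.unpair.2.unpair.2
def new (x : ℕ) : ℕ := Nat.pair x.unpair.1.unpair.1 (Nat.pair x.unpair.1.unpair.2 x.unpair.2)

theorem pair_comp {f g : ℕ → ℕ} (hf : Computable f) (hg : Computable g) :
    Computable fun x => Nat.pair (f x) (g x) :=
  Primrec₂.natPair.to_comp.comp hf hg

theorem old_comp : Computable old := by
  have h1 : Computable fun x : ℕ => x.unpair.1 := Computable.fst.comp Computable.unpair
  have h2 : Computable fun x : ℕ => x.unpair.2 := Computable.snd.comp Computable.unpair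
  exact pair_comp (pair_comp h1 (h1.comp h2)) (h2.comp h2)

theorem new_comp : Computable new := by
  have h1 : Computable fun x : ℕ => x.unpair.1 := Computable.fst.comp Computable.unpair
  have h2 : Computable fun x : ℕ => x.unpair.2 := Computable.snd.comp Computable.unpair
  exact pair_comp (h1.comp h1) (pair_comp (h2.comp h1) h2)

theorem new_old (x : ℕ) : new (old x) = x := by
  simp [new, old]

theorem old_new (x : ℕ) : old (new x) = x := by
  simp [new, old]

/-- column -/
def col (n y : ℕ) : Set ℕ := {x | x.unpair.1 = n ∧ yy x = y}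

theorem col_eq (n y : ℕ) : col n y = row n ∩ {x | yy x = y} := by
  ext x
  rfl

theorem cr_col (n y : ℕ) : CR (col n y) := by
  rw [col_eq]
  exact cr_inter (cr_row n) (cr_eq yy_comp y)

theorem old_col (n y : ℕ) : old '' (col n y) = row (Nat.pair n y) := by
  ext x
  constructor
  · rintro ⟨x, ⟨h1, h2⟩, rfl⟩
    show (old x).unpair.1 = Nat.pair n y
    simp only [old, Nat.unpair_pair]
    rw [h1]
    rw [show x.unpair.2.unpair.1 = y from h2]
  · intro hx
    have hx' : x.unpair.1 = Nat.pair n y := hx
    refine ⟨new x, ⟨?_, ?_⟩, old_new x⟩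
    · simp [new, hx']
    · simp [new, yy, hx']

/-- finite union of columns -/
theorem fin_cols (h1 : TaskC1) (h2 : TaskC2) (h3 : TaskC3) (A : ℕ → Set ℕ) (l : ℕ)
    (s : Finset ℕ) : ∀ R : Set ℕ, CR R → TW A l R → (∀ x ∈ R, yy x ∈ s) →
    ∃ y ∈ s, TW A l (R ∩ {x | yy x = y}) := by
  induction s using Finset.induction_on with
  | empty =>
    intro R hR hT hs
    exfalso
    have : R = ∅ := by
      ext x
      constructor
      · intro hx
        exact absurd (hs x hx) (by simp)
      · intro hx
        exact absurd hx (by simp)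
    subst this
    refine h3 A l ∅ cr_empty (fun i _ => ?_) hT
    rw [Set.empty_inter]
    exact cr_empty
  | insert y s hys ih =>
    intro R hR hT hs
    have e : (R ∩ {x | yy x = y}) ∪ (R ∩ {x | yy x = y}ᶜ) = R := by
      rw [← Set.inter_union_distrib_left, Set.union_compl_self, Set.inter_univ]
    have c1 : CR (R ∩ {x | yy x = y}) := cr_inter hR (cr_eq yy_comp y)
    have c2 : CR (R ∩ {x | yy x = y}ᶜ) := cr_inter hR (cr_compl (cr_eq yy_comp y))
    rw [← e] at hT
    rcases h2 h1 A l _ _ c1 c2 hT with h | h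
    · exact ⟨y, Finset.mem_insert_self _ _, h⟩
    · obtain ⟨y', hy', hT'⟩ := ih _ c2 h (fun x hx => by
        rcases Finset.mem_insert.1 (hs x hx.1) with h5 | h5
        · exact absurd h5 hx.2
        · exact h5)
      refine ⟨y', Finset.mem_insert_of_mem hy', ?_⟩
      refine h1 A l _ _ (cr_inter c2 (cr_eq yy_comp y')) (cr_inter hR (cr_eq yy_comp y')) ?_ hT'
      exact Set.inter_subset_inter_left _ Set.inter_subset_left

/-- columns of a computable set outside the dead part -/
theorem cols_finite (imm : ∀ C, CohS C → ∀ W : Set ℕ, REPred (fun x => x ∈ W) → W ⊆ C → W.Finite)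
    (C : Set ℕ) (hC : CohS C) (R : Set ℕ) (hR : CR R) (hd : ∀ x ∈ R, yy x ∈ C) :
    {y | ∃ x, x ∈ R ∧ yy x = y}.Finite := by
  refine imm C hC _ ?_ ?_
  · refine RE.exN (p := fun y x => x ∈ R ∧ yy x = y) ?_
    refine RE.and ?_ ?_
    · exact RE.comp (p := fun x => x ∈ R) (ComputablePred.to_re hR) Computable.snd
    · exact RE.eq (yy_comp.comp Computable.snd) Computable.fst
  · rintro y ⟨x, hx, rfl⟩
    exact hd x hx

end C10H192

open C10H192 Pool.Agent.Helper446 in
theorem taskC10
    (imm : ∀ C, CohS C → ∀ W : Set ℕ, REPred (fun x => x ∈ W) → W ⊆ C → W.Finite) :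
    TaskC10 := by
  intro hB h1 h2 h3 h4 h6 k hk hH D hD
  obtain ⟨C, hC⟩ := hB
  obtain ⟨D', hD', hanti, hDD⟩ := h6 k D hk hD
  obtain ⟨A', hA', hnest, hT⟩ := hH D' hD'
  obtain ⟨l, rfl⟩ : ∃ l, k = l + 1 := by
    rcases Nat.eq_zero_or_pos k with h | h
    · subst h
      exact absurd (Nat.even_iff.2 rfl) hk
    · exact ⟨k - 1, by omega⟩
  have hl : Even l := by
    rw [Nat.even_add_one, not_not] at hk
    exact hk
  let dead : Set ℕ := {x | yy x ∉ C}
  let A : ℕ → Set ℕ := fun i => if i ≤ l + 1 then {x | old x ∈ A' i} ∪ dead else dead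
  have hAle : ∀ i, i ≤ l + 1 → A i = {x | old x ∈ A' i} ∪ dead := fun i hi => if_pos hi
  have hAlast : A (l + 1 + 1) = dead := if_neg (by omega)
  have hdead : REPred fun x => x ∈ dead := RE.comp (p := fun y => y ∉ C) hC.2.1 yy_comp
  have hcol : ∀ n y, y ∈ C → (TW A (l + 1) (col n y) ↔ D' (Nat.pair n y)) := by
    intro n y hy
    rw [← hT (Nat.pair n y), ← old_col n y]
    refine h4 A A' old new old_comp new_comp new_old (l + 1) (col n y) (cr_col n y) ?_ ?_
    · rw [old_col]
      exact cr_row _
    · intro i hi x hx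
      rw [hAle i hi]
      constructor
      · rintro (h | h)
        · exact h
        · exfalso
          apply h
          rw [hx.2]
          exact hy
      · intro h
        exact Or.inl h
  refine ⟨A, ?_, ?_, ?_⟩
  · intro i
    by_cases hi : i ≤ l + 1
    · rw [hAle i hi]
      exact RE.or (RE.comp (p := fun x => x ∈ A' i) (hA' i) old_comp) hdead
    · have : A i = dead := if_neg hi
      rw [this]
      exact hdead
  · intro i j hij hj
    by_cases hj' : j ≤ l + 1
    · rw [hAle j hj', hAle i (hij.trans hj')]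
      rintro x (h | h)
      · exact Or.inl (hnest i j hij hj' h)
      · exact Or.inr h
    · have : A j = dead := if_neg hj'
      rw [this]
      by_cases hi : i ≤ l + 1
      · rw [hAle i hi]
        exact Set.subset_union_right
      · have : A i = dead := if_neg hi
        rw [this]
  · intro n
    rw [hDD n]
    constructor
    · -- only if
      intro hTW y0
      by_contra hy0
      have hno : ∀ y, y0 ≤ y → ¬ D' (Nat.pair n y) := fun y hy h => hy0 (hanti n y0 y hy h)
      have hTW2 := hTW.2 hk
      -- split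
      have cA : CR {x | yy x < y0} := RE.cp_lt yy_comp (Computable.const y0)
      have cR1 : CR (row n ∩ {x | yy x < y0}) := cr_inter (cr_row n) cA
      have cR2 : CR (row n ∩ {x | yy x < y0}ᶜ) := cr_inter (cr_row n) (cr_compl cA)
      have hTk := hTW2 (row n ∩ {x | yy x < y0}) (row n ∩ {x | yy x < y0}ᶜ) cR1 cR2 ?_ ?_ ?_
      · obtain ⟨R3, cR3, hR3, cR3k, hT3⟩ := hTk.1 hl
        have e : (R3 ∩ A (l + 1)) ∪ (R3 ∩ (R3 ∩ A (l + 1))ᶜ) = R3 := by
          ext x
          constructor
          · rintro (h | h)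
            · exact h.1
            · exact h.1
          · intro hx
            by_cases hxk : x ∈ R3 ∩ A (l + 1)
            · exact Or.inl hxk
            · exact Or.inr ⟨hx, hxk⟩
        have cR4 : CR (R3 ∩ (R3 ∩ A (l + 1))ᶜ) := cr_inter cR3 (cr_compl cR3k)
        rw [← e] at hT3
        rcases h2 h1 A l _ _ cR3k cR4 hT3 with h | h
        · refine h3 A l _ cR3k (fun i hi => ?_) h
          have : R3 ∩ A (l + 1) ∩ A i = R3 ∩ A (l + 1) := by
            apply Set.inter_eq_left.2
            rintro x ⟨-, hx⟩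
            rw [hAle (l + 1) le_rfl] at hx
            rw [hAle i (by omega)]
            rcases hx with hx | hx
            · exact Or.inl (hnest i (l + 1) (by omega) le_rfl hx)
            · exact Or.inr hx
          rw [this]
          exact cR3k
        · have hdis : ∀ x ∈ R3 ∩ (R3 ∩ A (l + 1))ᶜ, x ∉ A (l + 1) := fun x hx h5 => hx.2 ⟨hx.1, h5⟩
          have hnd : ∀ x ∈ R3 ∩ (R3 ∩ A (l + 1))ᶜ, yy x ∈ C := by
            intro x hx
            by_contra h5
            apply hdis x hx
            rw [hAle (l + 1) le_rfl]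
            exact Or.inr h5
          have hfin := cols_finite imm C hC _ cR4 hnd
          obtain ⟨y, hy, hTy⟩ := fin_cols h1 h2 h3 A l hfin.toFinset _ cR4 h (fun x hx => by
            rw [Set.Finite.mem_toFinset]
            exact ⟨x, hx, rfl⟩)
          rw [Set.Finite.mem_toFinset] at hy
          obtain ⟨x, hx, rfl⟩ := hy
          have hyC := hnd x hx
          have hy0 : y0 ≤ yy x := by
            have := (hR3 hx.1).2
            exact not_lt.1 this
          apply hno (yy x) hy0
          rw [← hcol n (yy x) hyC]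
          refine ⟨fun _ => ⟨_, cr_inter cR4 (cr_eq yy_comp (yy x)), ?_, ?_, hTy⟩,
            fun h5 => absurd hl h5⟩
          · rintro z ⟨hz, hz2⟩
            exact ⟨(hR3 hz.1).1, hz2⟩
          · have : R3 ∩ (R3 ∩ A (l + 1))ᶜ ∩ {z | yy z = yy x} ∩ A (l + 1) = ∅ := by
              ext z
              constructor
              · rintro ⟨⟨hz, -⟩, hz2⟩
                exact absurd hz2 (hdis z hz)
              · intro hz
                exact absurd hz (by simp)
            rw [this]
            exact cr_empty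
      · rw [Set.disjoint_left]
        rintro x ⟨-, hx⟩ ⟨-, hx'⟩
        exact hx' hx
      · rw [← Set.inter_union_distrib_left, Set.union_compl_self, Set.inter_univ]
      · rw [hAlast]
        have : row n ∩ {x | yy x < y0} ∩ dead = row n ∩ {x | yy x ∈ {y | y < y0 ∧ y ∉ C}} := by
          ext x
          constructor
          · rintro ⟨⟨h5, h6⟩, h7⟩
            exact ⟨h5, h6, h7⟩
          · rintro ⟨h5, h6, h7⟩
            exact ⟨⟨h5, h6⟩, h7⟩
        rw [this]
        exact cr_inter (cr_row n) (cr_pre (cr_low C y0) yy_comp)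
    · -- if
      intro hall
      refine ⟨fun h5 => absurd h5 hk, fun _ R1 R2 c1 c2 hdis hun cd => ?_⟩
      rw [hAlast] at cd
      have cR4 : CR (R1 ∩ (R1 ∩ dead)ᶜ) := cr_inter c1 (cr_compl cd)
      have hnd : ∀ x ∈ R1 ∩ (R1 ∩ dead)ᶜ, yy x ∈ C := by
        intro x hx
        by_contra h5
        exact hx.2 ⟨hx.1, h5⟩
      have hfin := cols_finite imm C hC _ cR4 hnd
      obtain ⟨y, hyC, hy⟩ := hC.1.exists_notMem_finite hfin
      have hTy := (hcol n y hyC).2 (hall y)
      refine h1 A (l + 1) _ _ (cr_col n y) c2 ?_ hTy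
      intro x hx
      have hxr : x ∈ R1 ∪ R2 := by
        rw [hun]
        exact hx.1
      rcases hxr with h5 | h5
      · exfalso
        apply hy
        refine ⟨x, ⟨h5, fun h6 => h6.2 ?_⟩, hx.2⟩
        rw [hx.2]
        exact hyC
      · exact h5

end Pool.Agent.H572R4
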