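import Pool.Agent.H572R4.Stmts

/-! Proof of `TaskC2` (project H572-PI). -/

set_option autoImplicit false

namespace Pool.Agent.H614R3.PI

open Pool.Agent.H572R4

theorem cr_inter {R S : Set ℕ} (h1 : CR R) (h2 : CR S) : CR (R ∩ S) :=
  (Pool.Agent.Helper446.CB.cp_and h1 h2).of_eq fun _ => Iff.rfl

theorem cr_union {R S : Set ℕ} (h1 : CR R) (h2 : CR S) : CR (R ∪ S) :=
  (Pool.Agent.Helper446.CB.cp_or h1 h2).of_eq fun _ => Iff.rfl

theorem cr_diff {R S : Set ℕ} (h1 : CR R) (h2 : CR S) : CR (R \ S) :=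
  (Pool.Agent.Helper446.CB.cp_and h1 h2.not).of_eq fun _ => Iff.rfl

theorem taskC2 : TaskC2 := by
  intro hC1 A k
  induction k with
  | zero =>
    intro R R' hR hR' h
    by_contra hcon
    push Not at hcon
    have h1 : CR (R ∩ A 0) := by
      by_contra h; exact hcon.1 h
    have h2 : CR (R' ∩ A 0) := by
      by_contra h; exact hcon.2 h
    refine h ?_
    rw [Set.union_inter_distrib_right]
    exact cr_union h1 h2
  | succ k ih =>
    intro R R' hR hR' h
    obtain ⟨he, ho⟩ := h
    by_cases hk : Even k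
    · obtain ⟨S, hS, hSs, hSA, hT⟩ := he hk
      have h1 : S = (S ∩ R) ∪ (S ∩ R') := by
        rw [← Set.inter_union_distrib_left]
        exact (Set.inter_eq_left.2 hSs).symm
      rw [h1] at hT
      have h3 : ∀ Q : Set ℕ, CR Q → CR (S ∩ Q ∩ A (k + 1)) := by
        intro Q hQ
        rw [Set.inter_right_comm]
        exact cr_inter hSA hQ
      rcases ih _ _ (cr_inter hS hR) (cr_inter hS hR') hT with h2 | h2
      · left
        exact ⟨fun _ => ⟨S ∩ R, cr_inter hS hR, Set.inter_subset_right, h3 R hR, h2⟩,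
          fun h => absurd hk h⟩
      · right
        exact ⟨fun _ => ⟨S ∩ R', cr_inter hS hR', Set.inter_subset_right, h3 R' hR', h2⟩,
          fun h => absurd hk h⟩
    · by_contra hcon
      push Not at hcon
      obtain ⟨n1, n2⟩ := hcon
      have key : ∀ Q : Set ℕ, ¬ TW A (k + 1) Q → ∃ R1 R2, CR R1 ∧ CR R2 ∧ Disjoint R1 R2 ∧
          R1 ∪ R2 = Q ∧ CR (R1 ∩ A (k + 1)) ∧ ¬ TW A k R2 := by
        intro Q hQ
        by_contra hcon
        refine hQ ⟨fun h => absurd h hk, fun _ R1 R2 h1 h2 h3 h4 h5 => ?_⟩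
        by_contra h6
        exact hcon ⟨R1, R2, h1, h2, h3, h4, h5, h6⟩
      obtain ⟨R1, R2, a1, a2, a3, a4, a5, a6⟩ := key R n1
      obtain ⟨R1', R2', b1, b2, b3, b4, b5, b6⟩ := key R' n2
      have hS2 : CR ((R ∪ R') \ (R1 ∪ R1')) := cr_diff (cr_union hR hR') (cr_union a1 b1)
      have hT := ho hk (R1 ∪ R1') ((R ∪ R') \ (R1 ∪ R1')) (cr_union a1 b1) hS2
        Set.disjoint_sdiff_right (by
          rw [Set.union_diff_self]
          apply Set.union_eq_self_of_subset_left
          rw [← a4, ← b4]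
          intro x hx
          rcases hx with hx | hx
          · exact Or.inl (Or.inl hx)
          · exact Or.inr (Or.inl hx)) (by
          rw [Set.union_inter_distrib_right]
          exact cr_union a5 b5)
      have hsub : (R ∪ R') \ (R1 ∪ R1') ⊆ R2 ∪ R2' := by
        rintro x ⟨hx, hx'⟩
        rw [← a4, ← b4] at hx
        rcases hx with (hx | hx) | (hx | hx)
        · exact absurd (Or.inl hx) hx'
        · exact Or.inl hx
        · exact absurd (Or.inr hx) hx'
        · exact Or.inr hx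
      have hT2 := hC1 A k _ _ hS2 (cr_union a2 b2) hsub hT
      rcases ih _ _ a2 b2 hT2 with h | h
      · exact a6 h
      · exact b6 h

end Pool.Agent.H614R3.PI
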