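import Pool.Agent.H572R4.Stmts

set_option autoImplicit false

namespace Pool.Agent.H572R4

theorem cr_inter468 {R S : Set ℕ} (hR : CR R) (hS : CR S) : CR (R ∩ S) := by
  obtain ⟨d1, h1⟩ := hR
  obtain ⟨d2, h2⟩ := hS
  have h3 : Computable fun n : ℕ => (decide (n ∈ R) && decide (n ∈ S)) :=
    Primrec.and.to_comp.comp h1 h2
  refine ⟨fun n => decidable_of_iff (n ∈ R ∧ n ∈ S) Iff.rfl, h3.of_eq fun n => ?_⟩
  by_cases a : n ∈ R <;> by_cases b : n ∈ S <;> simp [a, b]

theorem cr_empty468 : CR (∅ : Set ℕ) := by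
  have h3 : Computable fun _ : ℕ => false := Computable.const false
  refine ⟨fun n => isFalse fun h => h.elim, h3.of_eq fun n => ?_⟩
  simp

theorem taskC3 : TaskC3 := by
  intro A k
  induction k with
  | zero =>
    intro R _ h hT
    exact hT (h 0 le_rfl)
  | succ k ih =>
    intro R hR h hT
    by_cases hk : Even k
    · obtain ⟨R', hR', hsub, -, hT'⟩ := hT.1 hk
      refine ih R' hR' (fun i hi => ?_) hT'
      have h1 := cr_inter468 hR' (h i (Nat.le_succ_of_le hi))
      have h2 : R' ∩ (R ∩ A i) = R' ∩ A i := by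
        rw [← Set.inter_assoc, Set.inter_eq_left.2 hsub]
      rwa [h2] at h1
    · have h1 := hT.2 hk R ∅ hR cr_empty468 (Set.disjoint_empty R) (Set.union_empty R)
        (h (k + 1) le_rfl)
      refine ih ∅ cr_empty468 (fun i _ => ?_) h1
      rw [Set.empty_inter]
      exact cr_empty468

end Pool.Agent.H572R4
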