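import Pool.Agent.H572R4.Stmts

set_option autoImplicit false

namespace Pool.Agent.H592S.PI

open Pool.Agent.H572R4

theorem cr_iff (R : Set ℕ) : CR R ↔ ∃ φ : ℕ → Bool, Computable φ ∧ ∀ n, n ∈ R ↔ φ n = true := by
  unfold CR
  rw [ComputablePred.computable_iff]
  constructor
  · rintro ⟨φ, h1, h2⟩
    refine ⟨φ, h1, fun n => ?_⟩
    have := congrFun h2 n
    simp only [eq_iff_iff] at this
    exact this
  · rintro ⟨φ, h1, h2⟩
    refine ⟨φ, h1, ?_⟩
    funext n
    simp only [eq_iff_iff]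
    exact h2 n

theorem cr_preimage {f : ℕ → ℕ} (hf : Computable f) {S : Set ℕ} (h : CR S) : CR (f ⁻¹' S) := by
  rw [cr_iff] at h ⊢
  obtain ⟨φ, h1, h2⟩ := h
  exact ⟨fun n => φ (f n), h1.comp hf, fun n => h2 (f n)⟩

theorem cr_inter {S T : Set ℕ} (hS : CR S) (hT : CR T) : CR (S ∩ T) := by
  rw [cr_iff] at hS hT ⊢
  obtain ⟨φ, h1, h2⟩ := hS
  obtain ⟨ψ, h3, h4⟩ := hT
  refine ⟨fun n => φ n && ψ n, Primrec.and.to_comp.comp h1 h3, fun n => ?_⟩
  rw [Bool.and_eq_true, Set.mem_inter_iff, h2, h4]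

theorem cr_image_iff {f g : ℕ → ℕ} (hf : Computable f) (hg : Computable g)
    (hgf : ∀ x, g (f x) = x) {R R' : Set ℕ} (hR : CR (f '' R)) (hsub : R' ⊆ R) :
    CR (f '' R') ↔ CR R' := by
  have hinj : Function.Injective f := fun a b h => by rw [← hgf a, ← hgf b, h]
  constructor
  · intro h
    have h1 := cr_preimage hf h
    rwa [Set.preimage_image_eq _ hinj] at h1
  · intro h
    have h1 := cr_inter hR (cr_preimage hg h)
    have e : f '' R ∩ g ⁻¹' R' = f '' R' := by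
      ext y
      constructor
      · rintro ⟨⟨x, hx, rfl⟩, h2⟩
        have h3 : g (f x) ∈ R' := h2
        rw [hgf] at h3
        exact ⟨x, h3, rfl⟩
      · rintro ⟨x, hx, rfl⟩
        refine ⟨⟨x, hsub hx, rfl⟩, ?_⟩
        show g (f x) ∈ R'
        rw [hgf]
        exact hx
    rwa [e] at h1

theorem image_inter_eq {f : ℕ → ℕ} {A B : Set ℕ} {R R' : Set ℕ} (hsub : R' ⊆ R)
    (h : ∀ x ∈ R, x ∈ A ↔ f x ∈ B) : f '' (R' ∩ A) = f '' R' ∩ B := by
  ext y
  constructor
  · rintro ⟨x, ⟨hx, hxA⟩, rfl⟩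
    exact ⟨⟨x, hx, rfl⟩, (h x (hsub hx)).1 hxA⟩
  · rintro ⟨⟨x, hx, rfl⟩, hB⟩
    exact ⟨x, ⟨hx, (h x (hsub hx)).2 hB⟩, rfl⟩

theorem taskC4 : TaskC4 := by
  intro A B f g hf hg hgf k
  have hinj : Function.Injective f := fun a b h => by rw [← hgf a, ← hgf b, h]
  induction k with
  | zero =>
    intro R hR hfR hAB
    show (¬ CR (R ∩ A 0)) ↔ (¬ CR (f '' R ∩ B 0))
    rw [← image_inter_eq (le_refl R) (hAB 0 le_rfl),
      cr_image_iff hf hg hgf hfR (Set.inter_subset_left : R ∩ A 0 ⊆ R)]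
  | succ k ih =>
    intro R hR hfR hAB
    have hAB' : ∀ R' : Set ℕ, R' ⊆ R → ∀ i ≤ k, ∀ x ∈ R', (x ∈ A i ↔ f x ∈ B i) :=
      fun R' h i hi x hx => hAB i (hi.trans (Nat.le_succ k)) x (h hx)
    -- the key equivalence for computable traces
    have key : ∀ R' : Set ℕ, R' ⊆ R → (CR (R' ∩ A (k + 1)) ↔ CR (f '' R' ∩ B (k + 1))) := by
      intro R' h
      rw [← image_inter_eq h (hAB (k + 1) le_rfl),
        cr_image_iff hf hg hgf hfR (Set.inter_subset_left.trans h : R' ∩ A (k + 1) ⊆ R)]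
    -- preimages of subsets of the image
    have hpre : ∀ S' : Set ℕ, S' ⊆ f '' R → f ⁻¹' S' ⊆ R ∧ f '' (f ⁻¹' S') = S' := by
      intro S' h
      constructor
      · intro x hx
        obtain ⟨z, hz, e⟩ := h hx
        rw [← hinj e]
        exact hz
      · apply Set.image_preimage_eq_of_subset
        intro y hy
        obtain ⟨z, _, e⟩ := h hy
        exact ⟨z, e⟩
    show ((Even k → ∃ R', CR R' ∧ R' ⊆ R ∧ CR (R' ∩ A (k + 1)) ∧ TW A k R') ∧
        (¬ Even k → ∀ R' R'', CR R' → CR R'' → Disjoint R' R'' → R' ∪ R'' = R →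
          CR (R' ∩ A (k + 1)) → TW A k R'')) ↔
      ((Even k → ∃ R', CR R' ∧ R' ⊆ f '' R ∧ CR (R' ∩ B (k + 1)) ∧ TW B k R') ∧
        (¬ Even k → ∀ R' R'', CR R' → CR R'' → Disjoint R' R'' → R' ∪ R'' = f '' R →
          CR (R' ∩ B (k + 1)) → TW B k R''))
    constructor
    · rintro ⟨h1, h2⟩
      constructor
      · intro hk
        obtain ⟨R', a1, a2, a3, a4⟩ := h1 hk
        have b1 : CR (f '' R') := (cr_image_iff hf hg hgf hfR a2).2 a1
        exact ⟨f '' R', b1, Set.image_mono a2, (key R' a2).1 a3,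
          (ih R' a1 b1 (hAB' R' a2)).1 a4⟩
      · intro hk S' S'' c1 c2 c3 c4 c5
        have s1 : S' ⊆ f '' R := by rw [← c4]; exact Set.subset_union_left
        have s2 : S'' ⊆ f '' R := by rw [← c4]; exact Set.subset_union_right
        obtain ⟨p1, p2⟩ := hpre S' s1
        obtain ⟨q1, q2⟩ := hpre S'' s2
        have d1 := cr_preimage hf c1
        have d2 := cr_preimage hf c2
        have d3 : Disjoint (f ⁻¹' S') (f ⁻¹' S'') := c3.preimage f
        have d4 : f ⁻¹' S' ∪ f ⁻¹' S'' = R := by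
          rw [← Set.preimage_union, c4, Set.preimage_image_eq _ hinj]
        have d5 : CR (f ⁻¹' S' ∩ A (k + 1)) := by
          rw [key _ p1, p2]; exact c5
        have d6 := h2 hk _ _ d1 d2 d3 d4 d5
        have d7 : CR (f '' (f ⁻¹' S'')) := by rw [q2]; exact c2
        have d8 := (ih (f ⁻¹' S'') d2 d7 (hAB' _ q1)).1 d6
        rwa [q2] at d8
    · rintro ⟨h1, h2⟩
      constructor
      · intro hk
        obtain ⟨S', a1, a2, a3, a4⟩ := h1 hk
        obtain ⟨p1, p2⟩ := hpre S' a2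
        have b1 := cr_preimage hf a1
        have b2 : CR (f '' (f ⁻¹' S')) := by rw [p2]; exact a1
        refine ⟨f ⁻¹' S', b1, p1, ?_, ?_⟩
        · rw [key _ p1, p2]; exact a3
        · rw [ih (f ⁻¹' S') b1 b2 (hAB' _ p1), p2]; exact a4
      · intro hk R' R'' c1 c2 c3 c4 c5
        have s1 : R' ⊆ R := by rw [← c4]; exact Set.subset_union_left
        have s2 : R'' ⊆ R := by rw [← c4]; exact Set.subset_union_right
        have d1 : CR (f '' R') := (cr_image_iff hf hg hgf hfR s1).2 c1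
        have d2 : CR (f '' R'') := (cr_image_iff hf hg hgf hfR s2).2 c2
        have d3 : Disjoint (f '' R') (f '' R'') := (Set.disjoint_image_iff hinj).2 c3
        have d4 : f '' R' ∪ f '' R'' = f '' R := by rw [← Set.image_union, c4]
        have d6 := h2 hk _ _ d1 d2 d3 d4 ((key R' s1).1 c5)
        exact (ih R'' c2 d2 (hAB' _ s2)).2 d6

end Pool.Agent.H592S.PI
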