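import Pool.Agent.H572R4.Stmts

set_option autoImplicit false

/-! Task C8 of H572-PI (second prover): hardness at the lowest level. -/

namespace Pool.Agent.H449R3.PIC8

open Pool.Agent.H572R4 Pool.Agent.Helper446

/-- segments of a column: the first `m` columns are full or initial segments -/
theorem cols (S : ℕ → ℕ → Prop) (hS : ∀ b, (∀ i, S b i) ∨ ∃ N, ∀ i, S b i ↔ i < N) (m : ℕ) :
    ComputablePred fun j : ℕ =>
      j.unpair.2.unpair.1 < m → S j.unpair.2.unpair.1 j.unpair.2.unpair.2 := by
  have c1 : Computable fun j : ℕ => j.unpair.2.unpair.1 :=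
    Computable.fst.comp (Computable.unpair.comp (Computable.snd.comp Computable.unpair))
  have c2 : Computable fun j : ℕ => j.unpair.2.unpair.2 :=
    Computable.snd.comp (Computable.unpair.comp (Computable.snd.comp Computable.unpair))
  induction m with
  | zero =>
    refine RE.cp_of_re ((RE.const True).of_eq fun j => ?_) ((RE.const False).of_eq fun j => ?_)
    · simp
    · simp
  | succ m ih =>
    have h1 : ComputablePred fun j : ℕ => j.unpair.2.unpair.1 = m → S m j.unpair.2.unpair.2 := by
      rcases hS m with h | ⟨N, h⟩
      · refine RE.cp_of_re ((RE.const True).of_eq fun j => ?_) ((RE.const False).of_eq fun j => ?_)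
        · simp [h]
        · simp [h]
      · refine RE.cp_of_re
          ((RE.or (RE.ne c1 (Computable.const m)) (RE.lt c2 (Computable.const N))).of_eq
            fun j => ?_)
          ((RE.and (RE.eq c1 (Computable.const m)) (RE.le (Computable.const N) c2)).of_eq
            fun j => ?_)
        · rw [h]
          tauto
        · rw [h, _root_.not_imp, not_lt]
    refine RE.cp_of_re ((RE.and ih.to_re h1.to_re).of_eq fun j => ?_)
      ((RE.or ih.not.to_re h1.not.to_re).of_eq fun j => ?_)
    · constructor
      · rintro ⟨h2, h3⟩ h4
        rcases Nat.lt_or_ge j.unpair.2.unpair.1 m with h5 | h5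
        · exact h2 h5
        · have h6 : j.unpair.2.unpair.1 = m := by omega
          have h7 := h3 h6
          rw [← h6] at h7
          exact h7
      · intro h2
        refine ⟨fun h3 => h2 (by omega), fun h3 => ?_⟩
        have h7 := h2 (by omega)
        rw [h3] at h7
        exact h7
    · constructor
      · intro h2 h3
        rcases h2 with h2 | h2
        · exact h2 fun h4 => h3 (by omega)
        · refine h2 fun h4 => ?_
          have h7 := h3 (by omega)
          rw [h4] at h7
          exact h7
      · intro h2
        by_contra hcon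
        push Not at hcon
        refine h2 fun h3 => ?_
        rcases Nat.lt_or_ge j.unpair.2.unpair.1 m with h5 | h5
        · exact hcon.1 h5
        · have h6 : j.unpair.2.unpair.1 = m := by omega
          have h7 := hcon.2 h6
          rw [← h6] at h7
          exact h7

theorem taskC8 (imm : ∀ C, CohS C → ∀ W : Set ℕ, REPred (fun x => x ∈ W) → W ⊆ C → W.Finite) :
    TaskC8 := by
  rintro ⟨C, hC⟩ h7 D hD
  obtain ⟨I, hI, hI1, hI2, hI3⟩ := h7 D (hD.1 (by norm_num))
  have c0 : Computable fun j : ℕ => j.unpair.1 := Computable.fst.comp Computable.unpair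
  have c1 : Computable fun j : ℕ => j.unpair.2.unpair.1 :=
    Computable.fst.comp (Computable.unpair.comp (Computable.snd.comp Computable.unpair))
  have c2 : Computable fun j : ℕ => j.unpair.2.unpair.2 :=
    Computable.snd.comp (Computable.unpair.comp (Computable.snd.comp Computable.unpair))
  let A0 : Set ℕ := {j | j.unpair.2.unpair.1 ∉ C ∨
    I j.unpair.1 j.unpair.2.unpair.1 j.unpair.2.unpair.2}
  have hA0 : REPred fun j => j ∈ A0 :=
    RE.or (RE.comp hC.2.1 c1) (RE.comp hI ((c0.pair c1).pair c2))
  refine ⟨fun _ => A0, fun _ => hA0, fun i j _ _ => subset_rfl, fun n => ?_⟩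
  show ¬ CR (row n ∩ A0) ↔ D n
  constructor
  · intro h
    by_contra hD'
    apply h
    rw [hI3] at hD'
    push Not at hD'
    obtain ⟨a0, ha0⟩ := hD'
    have hS : ∀ b, (∀ i, (b ∉ C ∨ I n b i)) ∨ ∃ N, ∀ i, (b ∉ C ∨ I n b i) ↔ i < N := by
      intro b
      by_cases hb : b ∉ C
      · exact Or.inl fun i => Or.inl hb
      · by_cases hall : ∀ i, I n b i
        · exact Or.inl fun i => Or.inr (hall i)
        · right
          classical
          push Not at hall
          refine ⟨Nat.find hall, fun i => ?_⟩
          constructor
          · rintro (h1 | h1)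
            · exact absurd h1 hb
            · by_contra h2
              push Not at h2
              exact Nat.find_spec hall (hI1 n b _ _ h2 h1)
          · intro h1
            right
            by_contra h2
            exact Nat.find_min hall h1 h2
    have h1 := cols (fun b i => b ∉ C ∨ I n b i) hS a0
    have e1 : ComputablePred fun j : ℕ => j.unpair.1 = n := RE.cp_eq c0 (Computable.const n)
    refine RE.cp_of_re ((RE.and e1.to_re h1.to_re).of_eq fun j => ?_)
      ((RE.or e1.not.to_re h1.not.to_re).of_eq fun j => ?_)
    · constructor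
      · rintro ⟨h2, h3⟩
        refine ⟨h2, ?_⟩
        show _ ∨ _
        rw [h2]
        rcases Nat.lt_or_ge j.unpair.2.unpair.1 a0 with h5 | h5
        · exact h3 h5
        · exact Or.inr (hI2 n a0 _ h5 ha0 _)
      · rintro ⟨h2, h3⟩
        have h2' : j.unpair.1 = n := h2
        refine ⟨h2, fun _ => ?_⟩
        have h3' : j.unpair.2.unpair.1 ∉ C ∨
          I j.unpair.1 j.unpair.2.unpair.1 j.unpair.2.unpair.2 := h3
        rw [h2'] at h3'
        exact h3'
    · constructor
      · rintro h2 ⟨h3, h4⟩
        have h3' : j.unpair.1 = n := h3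
        rcases h2 with h2 | h2
        · exact h2 h3
        · apply h2
          intro _
          have h4' : j.unpair.2.unpair.1 ∉ C ∨
            I j.unpair.1 j.unpair.2.unpair.1 j.unpair.2.unpair.2 := h4
          rw [h3'] at h4'
          exact h4'
      · intro h2
        by_contra hcon
        push Not at hcon
        apply h2
        refine ⟨hcon.1, ?_⟩
        show _ ∨ _
        rw [hcon.1]
        rcases Nat.lt_or_ge j.unpair.2.unpair.1 a0 with h5 | h5
        · exact hcon.2 h5
        · exact Or.inr (hI2 n a0 _ h5 ha0 _)
  · intro h hcr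
    rw [hI3] at h
    have hW : REPred fun a : ℕ => ∃ i, ¬ (Nat.pair n (Nat.pair a i) ∈ row n ∩ A0) := by
      refine RE.exN (p := fun (a : ℕ) i => ¬ (Nat.pair n (Nat.pair a i) ∈ row n ∩ A0)) ?_
      have c3 : Computable fun x : ℕ × ℕ => Nat.pair n (Nat.pair x.1 x.2) :=
        (Primrec₂.natPair.comp (Primrec.const n)
          (Primrec₂.natPair.comp Primrec.fst Primrec.snd)).to_comp
      exact (RE.cp_comp hcr c3).not.to_re
    have hmem : ∀ a, (∃ i, ¬ (Nat.pair n (Nat.pair a i) ∈ row n ∩ A0)) ↔ a ∈ C := by
      intro a
      have hm : ∀ i, (Nat.pair n (Nat.pair a i) ∈ row n ∩ A0) ↔ (a ∉ C ∨ I n a i) := by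
        intro i
        constructor
        · rintro ⟨-, h4⟩
          have h4' : (Nat.pair n (Nat.pair a i)).unpair.2.unpair.1 ∉ C ∨
            I (Nat.pair n (Nat.pair a i)).unpair.1 (Nat.pair n (Nat.pair a i)).unpair.2.unpair.1
              (Nat.pair n (Nat.pair a i)).unpair.2.unpair.2 := h4
          simpa only [Nat.unpair_pair] using h4'
        · intro h4
          refine ⟨?_, ?_⟩
          · show (Nat.pair n (Nat.pair a i)).unpair.1 = n
            rw [Nat.unpair_pair]
          · show (Nat.pair n (Nat.pair a i)).unpair.2.unpair.1 ∉ C ∨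
              I (Nat.pair n (Nat.pair a i)).unpair.1 (Nat.pair n (Nat.pair a i)).unpair.2.unpair.1
                (Nat.pair n (Nat.pair a i)).unpair.2.unpair.2
            simpa only [Nat.unpair_pair] using h4
      constructor
      · rintro ⟨i, hi⟩
        by_contra ha
        exact hi ((hm i).2 (Or.inl ha))
      · intro ha
        by_contra hcon
        push Not at hcon
        refine h a fun i => ?_
        rcases (hm i).1 (hcon i) with h5 | h5
        · exact absurd ha h5
        · exact h5
    have hfin := imm C hC C (hW.of_eq hmem) subset_rfl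
    exact hC.1 hfin

end Pool.Agent.H449R3.PIC8
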