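import Pool.Agent.H572R4.Stmts

/-!
Project H572-PI: the existential step (TaskC9).
-/

set_option autoImplicit false

namespace Pool.Agent.H572R4

open Pool.Agent.Helper446 Pool.Agent.Helper446.Defs Pool.Agent.Helper446.CB
  Pool.Agent.Helper446.CB.Ix

namespace C9H512

/-- old address of a new address -/
def od (x : ℕ) : ℕ :=
  Nat.pair (Nat.pair x.unpair.1 x.unpair.2.unpair.1) x.unpair.2.unpair.2

/-- new address of an old address -/
def nw (z : ℕ) : ℕ :=
  Nat.pair z.unpair.1.unpair.1 (Nat.pair z.unpair.1.unpair.2 z.unpair.2)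

/-- the second coordinate of a new address -/
def yc (x : ℕ) : ℕ := x.unpair.2.unpair.1

/-- a column -/
def col (n y : ℕ) : Set ℕ := {x | x.unpair.1 = n ∧ yc x = y}

theorem od_nw (z : ℕ) : od (nw z) = z := by
  simp [od, nw]

theorem nw_od (x : ℕ) : nw (od x) = x := by
  simp [od, nw]

theorem c_fst : Computable fun x : ℕ => x.unpair.1 := Computable.fst.comp Computable.unpair
theorem c_snd : Computable fun x : ℕ => x.unpair.2 := Computable.snd.comp Computable.unpair
theorem c_pair {f g : ℕ → ℕ} (hf : Computable f) (hg : Computable g) :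
    Computable fun x => Nat.pair (f x) (g x) :=
  (Primrec₂.natPair.to_comp).comp hf hg

theorem c_yc : Computable yc := c_fst.comp c_snd

theorem c_od : Computable od :=
  c_pair (c_pair c_fst (c_fst.comp c_snd)) (c_snd.comp c_snd)

theorem c_nw : Computable nw :=
  c_pair (c_fst.comp c_fst) (c_pair (c_snd.comp c_fst) c_snd)

theorem cr_inter {R S : Set ℕ} (hR : CR R) (hS : CR S) : CR (R ∩ S) := cp_and hR hS

theorem cr_diff {R S : Set ℕ} (hR : CR R) (hS : CR S) : CR (R \ S) := cp_and hR hS.not

theorem cr_empty : CR (∅ : Set ℕ) := by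
  have h : ComputablePred fun _ : ℕ => (0 : ℕ) = 1 :=
    RE.cp_eq (Computable.const 0) (Computable.const 1)
  exact h.of_eq fun x => by simp

theorem cr_col (n y : ℕ) : CR (col n y) :=
  cp_and (RE.cp_eq c_fst (Computable.const n)) (RE.cp_eq c_yc (Computable.const y))

theorem image_row (n y : ℕ) : nw '' row (Nat.pair n y) = col n y := by
  ext x
  constructor
  · rintro ⟨z, hz, rfl⟩
    have hz' : z.unpair.1 = Nat.pair n y := hz
    refine ⟨?_, ?_⟩ <;> simp [nw, yc, hz']
  · rintro ⟨h1, h2⟩
    refine ⟨od x, ?_, nw_od x⟩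
    show (od x).unpair.1 = Nat.pair n y
    have h2' : x.unpair.2.unpair.1 = y := h2
    simp [od, h1, h2']

/-- finitely many columns -/
theorem fin_cols (h1 : TaskC1) (h2 : TaskC2) (h3 : TaskC3) (A : ℕ → Set ℕ) (k n : ℕ)
    (F : Finset ℕ) : ∀ R : Set ℕ, CR R → TW A k R →
      (∀ x ∈ R, x.unpair.1 = n ∧ yc x ∈ F) → ∃ y ∈ F, TW A k (R ∩ col n y) := by
  classical
  induction F using Finset.induction_on with
  | empty =>
    intro R hR hT hF
    exfalso
    have he : R = ∅ := by
      ext x
      constructor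
      · intro hx
        exact absurd (hF x hx).2 (by simp)
      · intro hx
        exact absurd hx (by simp)
    subst he
    refine h3 A k ∅ hR (fun i _ => ?_) hT
    rw [Set.empty_inter]
    exact hR
  | insert y F _ ih =>
    intro R hR hT hF
    have e : R = (R ∩ col n y) ∪ (R \ col n y) := (Set.inter_union_diff R _).symm
    have hT' : TW A k ((R ∩ col n y) ∪ (R \ col n y)) := by
      rw [← e]
      exact hT
    rcases h2 h1 A k _ _ (cr_inter hR (cr_col n y)) (cr_diff hR (cr_col n y)) hT' with h | h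
    · exact ⟨y, Finset.mem_insert_self _ _, h⟩
    · obtain ⟨y', hy', h'⟩ := ih (R \ col n y) (cr_diff hR (cr_col n y)) h (by
        intro x hx
        obtain ⟨e1, e2⟩ := hF x hx.1
        refine ⟨e1, ?_⟩
        rcases Finset.mem_insert.1 e2 with e3 | e3
        · exact absurd ⟨e1, e3⟩ hx.2
        · exact e3)
      refine ⟨y', Finset.mem_insert_of_mem hy', h1 A k _ _
        (cr_inter (cr_diff hR (cr_col n y)) (cr_col n y')) (cr_inter hR (cr_col n y')) ?_ h'⟩
      intro x hx
      exact ⟨hx.1.1, hx.2⟩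

end C9H512

open C9H512

theorem taskC9 (imm : ∀ C : Set ℕ, CohS C → ∀ W : Set ℕ, REPred (fun x => x ∈ W) → W ⊆ C →
    W.Finite) : TaskC9 := by
  classical
  intro hB h1 h2 h3 h4 h5 k hk hH D hD
  obtain ⟨C, hC⟩ := hB
  obtain ⟨D', hD', hmon, hDD'⟩ := h5 k D hk hD
  obtain ⟨A', hA', hnest, hTW⟩ := hH D' hD'
  let dead : Set ℕ := {x | yc x ∉ C}
  let A : ℕ → Set ℕ := fun i => {x | yc x ∉ C ∨ (i ≤ k ∧ od x ∈ A' i)}
  have hAk1 : A (k + 1) = dead := by
    ext x
    show (yc x ∉ C ∨ (k + 1 ≤ k ∧ od x ∈ A' (k + 1))) ↔ yc x ∉ C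
    constructor
    · rintro (h | h)
      · exact h
      · omega
    · exact Or.inl
  have hdA : ∀ i, dead ⊆ A i := fun i x hx => Or.inl hx
  have hcol : ∀ n y, y ∈ C → (TW A k (col n y) ↔ D' (Nat.pair n y)) := by
    intro n y hy
    rw [← hTW (Nat.pair n y), ← image_row n y]
    have hcr : CR (nw '' row (Nat.pair n y)) := by
      rw [image_row]
      exact cr_col n y
    refine (h4 A' A nw od c_nw c_od od_nw k (row (Nat.pair n y)) (cr_row _) hcr ?_).symm
    intro i hi z hz
    have hz' : z.unpair.1 = Nat.pair n y := hz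
    have hyz : yc (nw z) = y := by simp [nw, yc, hz']
    show z ∈ A' i ↔ (yc (nw z) ∉ C ∨ (i ≤ k ∧ od (nw z) ∈ A' i))
    rw [od_nw, hyz]
    constructor
    · intro h
      exact Or.inr ⟨hi, h⟩
    · rintro (h | h)
      · exact absurd hy h
      · exact h.2
  refine ⟨A, ?_, ?_, ?_⟩
  · intro i
    have hd : REPred fun x : ℕ => yc x ∉ C := RE.comp hC.2.1 c_yc
    by_cases hi : i ≤ k
    · have ha : REPred fun x : ℕ => od x ∈ A' i := RE.comp (hA' i) c_od
      refine (RE.or hd ha).of_eq fun x => ?_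
      show (yc x ∉ C ∨ od x ∈ A' i) ↔ (yc x ∉ C ∨ (i ≤ k ∧ od x ∈ A' i))
      simp [hi]
    · refine hd.of_eq fun x => ?_
      show (yc x ∉ C) ↔ (yc x ∉ C ∨ (i ≤ k ∧ od x ∈ A' i))
      simp [hi]
  · intro i j hij hj x hx
    rcases hx with hx | hx
    · exact Or.inl hx
    · exact Or.inr ⟨hij.trans hx.1, hnest i j hij hx.1 hx.2⟩
  · intro n
    rw [hDD' n]
    have hunf : TW A (k + 1) (row n) ↔
        ∃ R', CR R' ∧ R' ⊆ row n ∧ CR (R' ∩ A (k + 1)) ∧ TW A k R' := by
      constructor
      · intro h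
        exact h.1 hk
      · intro h
        exact ⟨fun _ => h, fun h' => absurd hk h'⟩
    rw [hunf, hAk1]
    constructor
    · rintro ⟨R', hR', hsub, hRd, hT⟩
      have hRm : CR (R' \ dead) := by
        have e : R' \ dead = R' \ (R' ∩ dead) := by
          ext x
          constructor
          · rintro ⟨e1, e2⟩
            exact ⟨e1, fun e3 => e2 e3.2⟩
          · rintro ⟨e1, e2⟩
            exact ⟨e1, fun e3 => e2 ⟨e1, e3⟩⟩
        rw [e]
        exact cr_diff hR' hRd
      have e : R' = (R' ∩ dead) ∪ (R' \ dead) := (Set.inter_union_diff R' _).symm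
      have hT' : TW A k ((R' ∩ dead) ∪ (R' \ dead)) := by
        rw [← e]
        exact hT
      rcases h2 h1 A k _ _ hRd hRm hT' with h | h
      · exfalso
        refine h3 A k _ hRd (fun i _ => ?_) h
        have e2 : R' ∩ dead ∩ A i = R' ∩ dead :=
          Set.inter_eq_left.2 (Set.inter_subset_right.trans (hdA i))
        rw [e2]
        exact hRd
      · -- the set of columns
        let Y : Set ℕ := {y | ∃ x : ℕ, x ∈ R' \ dead ∧ yc x = y}
        have hYre : REPred fun y => y ∈ Y := by
          refine RE.exN (p := fun y x : ℕ => x ∈ R' \ dead ∧ yc x = y) ?_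
          refine RE.and ?_ ?_
          · exact RE.comp (RE.of_comput hRm) (Computable.snd (α := ℕ) (β := ℕ))
          · exact RE.eq (c_yc.comp Computable.snd) Computable.fst
        have hYC : Y ⊆ C := by
          rintro y ⟨x, hx, rfl⟩
          by_contra hcon
          exact hx.2 hcon
        have hYfin := imm C hC Y hYre hYC
        obtain ⟨y, hy, hTy⟩ := fin_cols h1 h2 h3 A k n hYfin.toFinset (R' \ dead) hRm h (by
          intro x hx
          exact ⟨hsub hx.1, hYfin.mem_toFinset.2 ⟨x, hx, rfl⟩⟩)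
        have hyC : y ∈ C := hYC (hYfin.mem_toFinset.1 hy)
        refine ⟨y, (hcol n y hyC).1 (h1 A k _ _ (cr_inter hRm (cr_col n y)) (cr_col n y)
          Set.inter_subset_right hTy)⟩
    · rintro ⟨y0, hy0⟩
      obtain ⟨y, hy, hyy⟩ := hC.1.exists_gt y0
      refine ⟨col n y, cr_col n y, fun x hx => hx.1, ?_, (hcol n y hy).2
        (hmon n y0 y hyy.le hy0)⟩
      have e : col n y ∩ dead = ∅ := by
        ext x
        constructor
        · rintro ⟨e1, e2⟩
          exfalso
          have e3 : yc x = y := e1.2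
          apply e2
          rw [e3]
          exact hy
        · intro hx
          exact absurd hx (by simp)
      rw [e]
      exact cr_empty

end Pool.Agent.H572R4
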