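import Pool.Agent.H572R4.Stmts

/-! Project H572-PI: tasks D1 and D3. -/

set_option autoImplicit false

namespace Pool.Agent.H645R3.PI

open Pool.Agent.Helper446 Pool.Agent.Helper446.Defs Pool.Agent.Helper446.CB
  Pool.Agent.Helper446.CB.Ix Pool.Agent.H572R4 Pool.Agent.Helper446.RE

theorem xp_self (j : ℕ) : xp j j = true := by simp [xp]

theorem xp_ne {i j : ℕ} (h : i ≠ j) : xp j i = false := by simp [xp, h]

theorem xp_ne_zz (j : ℕ) : xp j ≠ zz := by
  intro h
  have := congrFun h j
  rw [xp_self] at this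
  simp [zz] at this

/-- computability of the segments of the points `xp j` -/
theorem segxp_comp : Computable fun p : ℕ × ℕ => seg (xp p.1) p.2 := by
  have h : Primrec fun p : ℕ × ℕ => (List.range p.2).map fun i => decide (i = p.1) :=
    Primrec.list_map (Primrec.list_range.comp Primrec.snd)
      (Primrec.eq.decide.comp Primrec.snd (Primrec.fst.comp Primrec.fst))
  exact h.to_comp

/-- least stage -/
def LS (q : ℕ → ℕ → Bool) (j s : ℕ) : Prop := q j s = true ∧ ∀ t < s, q j t = false

theorem LS.uniq {q : ℕ → ℕ → Bool} {j s s' : ℕ} (h : LS q j s) (h' : LS q j s') : s = s' := by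
  rcases lt_trichotomy s s' with h1 | h1 | h1
  · have := h'.2 s h1
    rw [h.1] at this
    cases this
  · exact h1
  · have := h.2 s' h1
    rw [h'.1] at this
    cases this

theorem LS.exists {q : ℕ → ℕ → Bool} {j : ℕ} (h : ∃ s, q j s = true) : ∃ s, LS q j s := by
  classical
  refine ⟨Nat.find h, Nat.find_spec h, fun t ht => ?_⟩
  have := Nat.find_min h ht
  simpa using this

theorem LS.re {q : ℕ → ℕ → Bool} (hq : Computable₂ q) :
    REPred fun y : ℕ × ℕ => LS q y.1 y.2 := by
  refine RE.and (of_bool (f := fun y : ℕ × ℕ => q y.1 y.2) hq) ?_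
  refine all_lt (p := fun (y : ℕ × ℕ) t => q y.1 t = false) ?_ Computable.snd
  exact RE.eq (f := fun x : (ℕ × ℕ) × ℕ => q x.1.1 x.2)
    (hq.comp (Computable.fst.comp Computable.fst) Computable.snd) (Computable.const false)

theorem first_eq {x : ℕ → Bool} {j j' n n' : ℕ} (h : seg x n = seg (xp j) n)
    (h' : seg x n' = seg (xp j') n') (hn : j < n) (hn' : j' < n') : j = j' := by
  rw [seg_eq_iff] at h h'
  rcases lt_trichotomy j j' with h1 | h1 | h1
  · have e1 := h j hn
    have e2 := h' j (by omega)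
    rw [xp_self] at e1
    rw [xp_ne h1.ne] at e2
    rw [e1] at e2
    cases e2
  · exact h1
  · have e1 := h j' (by omega)
    have e2 := h' j' hn'
    rw [xp_self] at e2
    rw [xp_ne h1.ne] at e1
    rw [e2] at e1
    cases e1

/-- Task D1: complemented elements have computable sets of locations. -/
theorem taskD1 : TaskD1 := by
  rintro B hB c ⟨d, hcd, hcd'⟩
  have key : ∀ e : LB B, REPred fun j => xp j ∉ e.1 := by
    intro e
    obtain ⟨W, hW, he⟩ := isPi01_iff.1 e.2.1
    have h1 : REPred fun j : ℕ => ∃ n, seg (xp j) n ∈ W :=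
      exN (p := fun j n => seg (xp j) n ∈ W) (RE.comp hW segxp_comp)
    refine h1.of_eq fun j => ?_
    rw [he]
    simp
  refine cp_of_re ?_ (key c)
  refine (key d).of_eq fun j => ?_
  have h1 : c.1 ∩ d.1 = {zz} := (congrArg Subtype.val hcd).trans hB
  have h2 : c.1 ∪ d.1 = Set.univ := congrArg Subtype.val hcd'
  constructor
  · intro h
    have : xp j ∈ c.1 ∪ d.1 := by rw [h2]; trivial
    rcases this with h3 | h3
    · exact h3
    · exact absurd h3 h
  · intro h h3
    have : xp j ∈ c.1 ∩ d.1 := ⟨h, h3⟩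
    rw [h1] at this
    exact xp_ne_zz j this

/-- the parameter class -/
def VS (q : ℕ → ℕ → Bool) : Set (ℕ → Bool) :=
  {x | ∀ j s, LS q j s → seg x (j + 1 + s) ≠ seg (xp j) (j + 1 + s)}

theorem VS.pi {q : ℕ → ℕ → Bool} (hq : Computable₂ q) : IsPi01 (VS q) := by
  rw [isPi01_iff]
  refine ⟨{σ | ∃ j s, LS q j s ∧ σ = seg (xp j) (j + 1 + s)}, ?_, ?_⟩
  · refine exN (p := fun (σ : List Bool) j => ∃ s, LS q j s ∧ σ = seg (xp j) (j + 1 + s)) ?_
    refine exN (p := fun (y : List Bool × ℕ) s =>
      LS q y.2 s ∧ y.1 = seg (xp y.2) (y.2 + 1 + s)) ?_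
    refine RE.and (RE.comp (LS.re hq) (f := fun z : (List Bool × ℕ) × ℕ => (z.1.2, z.2))
      (by fun_prop)) ?_
    refine RE.eq (by fun_prop) (segxp_comp.comp
      (g := fun z : (List Bool × ℕ) × ℕ => (z.1.2, z.1.2 + 1 + z.2)) (by fun_prop))
  · ext x
    simp only [VS, Set.mem_ofPred_eq]
    constructor
    · rintro h n ⟨j, s, hs, he⟩
      have hn : n = j + 1 + s := by
        have := congrArg List.length he
        simpa using this
      subst hn
      exact h j s hs he
    · intro h j s hs he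
      exact h _ ⟨j, s, hs, he⟩

theorem VS.zz_mem (q : ℕ → ℕ → Bool) : zz ∈ VS q := by
  intro j s _ h
  rw [seg_eq_iff] at h
  have := h j (by omega)
  rw [xp_self] at this
  simp [zz] at this

theorem VS.xp_mem {q : ℕ → ℕ → Bool} {j : ℕ} : xp j ∈ VS q ↔ ¬ ∃ s, q j s = true := by
  constructor
  · intro h hs
    obtain ⟨s, hs⟩ := LS.exists hs
    exact h j s hs rfl
  · intro h j' s hs he
    have : j = j' := first_eq (x := xp j) (n := j' + 1 + s + j + 1) rfl he (by omega) (by omega)
    subst this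
    exact h ⟨s, hs.1⟩

/-- the bad strings for the difference class -/
def WE (q : ℕ → ℕ → Bool) (P : ℕ → Prop) (W : Set (List Bool)) (σ : List Bool) : Prop :=
  σ ∈ W ∨ ∃ j, σ.take (j + 1) = seg (xp j) (j + 1) ∧
    (P j ∨ (∃ s, LS q j s ∧ ∃ i, j < i ∧ i < j + 1 + s ∧ σ[i]? = some true) ∨
      ∃ n, seg (xp j) n ∈ W ∧ ∀ t < n, q j t = false)

theorem WE.re {q : ℕ → ℕ → Bool} (hq : Computable₂ q) {P : ℕ → Prop} (hP : REPred P)
    {W : Set (List Bool)} (hW : REPred fun σ => σ ∈ W) : REPred fun σ => WE q P W σ := by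
  refine RE.or hW ?_
  refine exN (p := fun (σ : List Bool) j => σ.take (j + 1) = seg (xp j) (j + 1) ∧
    (P j ∨ (∃ s, LS q j s ∧ ∃ i, j < i ∧ i < j + 1 + s ∧ σ[i]? = some true) ∨
      ∃ n, seg (xp j) n ∈ W ∧ ∀ t < n, q j t = false)) ?_
  refine RE.and (RE.eq (ctake (by fun_prop) (by fun_prop)) (segxp_comp.comp
    (g := fun z : List Bool × ℕ => (z.2, z.2 + 1)) (by fun_prop))) ?_
  refine RE.or (RE.comp hP (f := fun z : List Bool × ℕ => z.2) (by fun_prop)) ?_
  refine RE.or ?_ ?_
  · refine exN (p := fun (z : List Bool × ℕ) s => LS q z.2 s ∧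
      ∃ i, z.2 < i ∧ i < z.2 + 1 + s ∧ z.1[i]? = some true) ?_
    refine RE.and (RE.comp (LS.re hq) (f := fun z : (List Bool × ℕ) × ℕ => (z.1.2, z.2))
      (by fun_prop)) ?_
    refine exN (p := fun (z : (List Bool × ℕ) × ℕ) i => z.1.2 < i ∧ i < z.1.2 + 1 + z.2 ∧
      z.1.1[i]? = some true) ?_
    refine RE.and (RE.lt (by fun_prop) (by fun_prop)) (RE.and (RE.lt (by fun_prop) (by fun_prop)) ?_)
    have hf : Computable fun z : ((List Bool × ℕ) × ℕ) × ℕ => z.1.1.1 := by fun_prop
    have hg : Computable fun z : ((List Bool × ℕ) × ℕ) × ℕ => z.2 := by fun_prop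
    exact RE.eq (Computable.list_getElem?.comp hf hg) (Computable.const (some true))
  · refine exN (p := fun (z : List Bool × ℕ) n => seg (xp z.2) n ∈ W ∧
      ∀ t < n, q z.2 t = false) ?_
    refine RE.and (RE.comp hW (segxp_comp.comp
      (g := fun z : (List Bool × ℕ) × ℕ => (z.1.2, z.2)) (by fun_prop))) ?_
    refine all_lt (p := fun (z : (List Bool × ℕ) × ℕ) t => q z.1.2 t = false) ?_
      (by fun_prop)
    exact RE.eq (f := fun z : ((List Bool × ℕ) × ℕ) × ℕ => q z.1.1.2 z.2)
      (hq.comp (by fun_prop) (by fun_prop)) (Computable.const false)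

theorem diff_pi {q : ℕ → ℕ → Bool} (hq : Computable₂ q) {P : ℕ → Prop} (hP : REPred P)
    {W : Set (List Bool)} (hW : REPred fun σ => σ ∈ W) {c : Set (ℕ → Bool)}
    (hc : c = {x | ∀ n, seg x n ∉ W}) (hz : zz ∈ c)
    (hP' : ∀ j, P j ↔ xp j ∈ c ∧ ¬ ∃ s, q j s = true) :
    IsPi01 {x | x = zz ∨ (x ∈ c ∧ x ∉ VS q)} := by
  classical
  have hcx : ∀ x, x ∈ c ↔ ∀ n, seg x n ∉ W := by intro x; rw [hc]; rfl
  rw [isPi01_iff]
  refine ⟨{σ | WE q P W σ}, WE.re hq hP hW, ?_⟩
  ext x
  simp only [Set.mem_ofPred_eq]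
  constructor
  · rintro h n (h1 | ⟨j, hj, h1⟩)
    · have hx : x ∈ c := by
        rcases h with h | h
        · rw [h]; exact hz
        · exact h.1
      exact (hcx x).1 hx n h1
    · have hlen : j + 1 ≤ n := by
        have := congrArg List.length hj
        rw [List.length_take, seg_length, seg_length] at this
        omega
      rw [seg_take x hlen] at hj
      rcases h with h | ⟨hxc, hxV⟩
      · rw [h, seg_eq_iff] at hj
        have := hj j (by omega)
        rw [xp_self] at this
        simp [zz] at this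
      · simp only [VS, Set.mem_ofPred_eq, not_forall] at hxV
        obtain ⟨j', s', hs', he⟩ := hxV
        push Not at he
        have hjj : j = j' := first_eq hj he (by omega) (by omega)
        subst hjj
        rcases h1 with h1 | ⟨s, hs, i, hi1, hi2, hi3⟩ | ⟨m, hm1, hm2⟩
        · exact ((hP' j).1 h1).2 ⟨s', hs'.1⟩
        · have : s = s' := hs.uniq hs'
          subst this
          have hin : i < n := by
            by_contra hcon
            rw [List.getElem?_eq_none (by rw [seg_length]; omega)] at hi3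
            cases hi3
          rw [seg_getElem? x hin] at hi3
          have hxi : x i = true := by simpa using hi3
          rw [seg_eq_iff] at he
          have := he i hi2
          rw [hxi, xp_ne (by omega)] at this
          cases this
        · have hms : m ≤ s' := by
            by_contra hcon
            have := hm2 s' (by omega)
            rw [hs'.1] at this
            cases this
          have : seg x m = seg (xp j) m := seg_mono_eq he (by omega)
          rw [← this] at hm1
          exact (hcx x).1 hxc m hm1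
  · intro h
    by_cases hx : x = zz
    · exact Or.inl hx
    right
    have hxc : x ∈ c := (hcx x).2 fun n hn => h n (Or.inl hn)
    refine ⟨hxc, fun hxV => ?_⟩
    have hex : ∃ j, x j = true := by
      by_contra hcon
      push Not at hcon
      apply hx
      funext j
      simpa [zz] using hcon j
    obtain ⟨j, hj, hmin⟩ : ∃ j, x j = true ∧ ∀ i < j, x i = false := by
      refine ⟨Nat.find hex, Nat.find_spec hex, fun i hi => ?_⟩
      simpa using Nat.find_min hex hi
    have hseg : seg x (j + 1) = seg (xp j) (j + 1) := by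
      rw [seg_eq_iff]
      intro i hi
      rcases Nat.lt_succ_iff_lt_or_eq.1 hi with h1 | h1
      · rw [hmin i h1, xp_ne h1.ne]
      · rw [h1, hj, xp_self]
    by_cases hA : ∃ s, q j s = true
    · obtain ⟨s, hs⟩ := LS.exists hA
      have hne := hxV j s hs
      rw [Ne, seg_eq_iff] at hne
      push Not at hne
      obtain ⟨i, hi, hxi⟩ := hne
      have hij : j < i := by
        by_contra hcon
        exact hxi (seg_eq_iff.1 hseg i (by omega))
      rw [xp_ne (by omega)] at hxi
      have hxi' : x i = true := by simpa using hxi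
      refine h (j + 1 + s) (Or.inr ⟨j, ?_, Or.inr (Or.inl ⟨s, hs, i, hij, hi, ?_⟩)⟩)
      · rw [seg_take x (by omega), hseg]
      · rw [seg_getElem? x hi, hxi']
    · by_cases hjc : xp j ∈ c
      · refine h (j + 1) (Or.inr ⟨j, ?_, Or.inl ((hP' j).2 ⟨hjc, hA⟩)⟩)
        rw [seg_take x (by omega), hseg]
      · rw [hcx] at hjc
        push Not at hjc
        obtain ⟨m, hm⟩ := hjc
        refine h (j + 1) (Or.inr ⟨j, ?_, Or.inr (Or.inr ⟨m, hm, fun t _ => ?_⟩)⟩)
        · rw [seg_take x (by omega), hseg]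
        · by_contra hcon
          exact hA ⟨t, by simpa using hcon⟩

/-- Task D3: parameters. -/
theorem taskD3 : TaskD3 := by
  classical
  intro B hB A hA
  obtain ⟨q, hq, hqA⟩ := re_iff.1 hA
  have hBz : ∀ x ∈ B.1, x = zz := by intro x hx; rw [hB] at hx; exact hx
  let V : LB B := ⟨VS q, VS.pi hq, fun x hx => by rw [hBz x hx]; exact VS.zz_mem q⟩
  have hVV : V.1 = VS q := rfl
  have hzB : zz ∈ B.1 := by rw [hB]; rfl
  refine ⟨V, fun c hc => ?_⟩
  have hzc : ∀ e : LB B, zz ∈ e.1 := fun e => e.2.2 hzB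
  have hRc := taskD1 B hB c hc
  constructor
  · rintro ⟨d, hd, hdV, hcd⟩
    have hRd := taskD1 B hB d hd
    have hdV' : d.1 ∩ V.1 = {zz} := (congrArg Subtype.val hdV).trans hB
    have hcd' : c.1 = (c.1 ∩ V.1) ∪ d.1 := congrArg Subtype.val hcd
    have he : Rc c.1 ∩ A = Rc d.1 := by
      ext j
      constructor
      · rintro ⟨h1, h2⟩
        have h3 : xp j ∈ (c.1 ∩ V.1) ∪ d.1 := by rw [← hcd']; exact h1
        rcases h3 with h3 | h3
        · exact absurd ((hqA j).1 h2) (VS.xp_mem.1 h3.2)
        · exact h3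
      · intro h1
        have h1' : xp j ∈ d.1 := h1
        refine ⟨?_, ?_⟩
        · show xp j ∈ c.1
          rw [hcd']
          exact Or.inr h1'
        · by_contra h2
          have h3 : xp j ∈ V.1 := VS.xp_mem.2 fun h => h2 ((hqA j).2 h)
          have h4 : xp j ∈ d.1 ∩ V.1 := ⟨h1', h3⟩
          rw [hdV'] at h4
          exact xp_ne_zz j h4
    rw [he]
    exact hRd
  · intro hR
    obtain ⟨cb, hcb, hcb'⟩ := hc
    have e1 : c.1 ∩ cb.1 = {zz} := (congrArg Subtype.val hcb).trans hB
    have e2 : c.1 ∪ cb.1 = Set.univ := congrArg Subtype.val hcb'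
    obtain ⟨W, hW, hcW⟩ := isPi01_iff.1 c.2.1
    have hP : REPred fun j => xp j ∈ c.1 ∧ ¬ ∃ s, q j s = true := by
      have h1 : REPred fun j => j ∈ Rc c.1 := hRc.to_re
      have h2 : REPred fun j => ¬ (j ∈ Rc c.1 ∩ A) := ComputablePred.to_re hR.not
      refine (RE.and h1 h2).of_eq fun j => ?_
      have h3 : j ∈ A ↔ ∃ s, q j s = true := hqA j
      show (j ∈ Rc c.1 ∧ ¬ (j ∈ Rc c.1 ∧ j ∈ A)) ↔ (j ∈ Rc c.1 ∧ ¬ ∃ s, q j s = true)
      rw [← h3]
      tauto
    have hE := diff_pi hq hP hW hcW (hzc c) (fun j => Iff.rfl)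
    let d : LB B := ⟨{x | x = zz ∨ (x ∈ c.1 ∧ x ∉ VS q)}, hE, fun x hx => Or.inl (hBz x hx)⟩
    have hdd : ∀ x, x ∈ d.1 ↔ x = zz ∨ (x ∈ c.1 ∧ x ∉ VS q) := fun x => Iff.rfl
    refine ⟨d, ⟨cb ⊔ V, ?_, ?_⟩, ?_, ?_⟩
    · apply Subtype.ext
      refine Eq.trans (b := ({zz} : Set (ℕ → Bool))) ?_ hB.symm
      ext x
      constructor
      · rintro ⟨h1, h2⟩
        rcases (hdd x).1 h1 with h1 | ⟨h1, h3⟩
        · exact h1
        · rcases h2 with h2 | h2
          · rw [← e1]; exact ⟨h1, h2⟩
          · exact absurd h2 h3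
      · intro h
        have h : x = zz := h
        rw [h]
        exact ⟨hzc d, Or.inl (hzc cb)⟩
    · apply Subtype.ext
      rw [lb_sup, lb_sup, lb_top]
      ext x
      refine ⟨fun _ => trivial, fun _ => ?_⟩
      by_cases hV : x ∈ VS q
      · exact Or.inr (Or.inr hV)
      · have : x ∈ c.1 ∪ cb.1 := by rw [e2]; trivial
        rcases this with h | h
        · exact Or.inl (Or.inr ⟨h, hV⟩)
        · exact Or.inr (Or.inl h)
    · apply Subtype.ext
      refine Eq.trans (b := ({zz} : Set (ℕ → Bool))) ?_ hB.symm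
      ext x
      constructor
      · rintro ⟨h1, h2⟩
        rcases (hdd x).1 h1 with h1 | ⟨h1, h3⟩
        · exact h1
        · exact absurd h2 h3
      · intro h
        have h : x = zz := h
        rw [h]
        exact ⟨hzc d, hzc V⟩
    · apply Subtype.ext
      rw [lb_sup, lb_inf]
      ext x
      constructor
      · intro h
        by_cases hV : x ∈ VS q
        · exact Or.inl ⟨h, hV⟩
        · exact Or.inr (Or.inr ⟨h, hV⟩)
      · rintro (h | h)
        · exact h.1
        · rcases (hdd x).1 h with h1 | h1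
          · rw [h1]; exact hzc c
          · exact h1.1

end Pool.Agent.H645R3.PI
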