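import Pool.Agent.H572R4.Stmts

set_option autoImplicit false

namespace Pool.Agent.H62R3.PI

open Pool.Agent.H572R4 Pool.Agent.Helper446 Pool.Agent.Helper446.Defs
open Pool.Agent.Helper446.CB Pool.Agent.Helper446.CB.Ix

section
variable {B : EPi}

theorem lb_ext {x y : LB B} (h : x.1 = y.1) : x = y := Subtype.ext h

theorem lb_mem_inf {x y : LB B} {p : ℕ → Bool} : p ∈ (x ⊓ y).1 ↔ p ∈ x.1 ∧ p ∈ y.1 := by
  rw [lb_inf]; exact Iff.rfl

theorem lb_mem_sup {x y : LB B} {p : ℕ → Bool} : p ∈ (x ⊔ y).1 ↔ p ∈ x.1 ∨ p ∈ y.1 := by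
  rw [lb_sup]; exact Iff.rfl

theorem inf_bot_iff {x y : LB B} : x ⊓ y = ⊥ ↔ ∀ p, p ∈ x.1 → p ∈ y.1 → p ∈ B.1 := by
  constructor
  · intro h p hx hy
    have h1 : p ∈ (x ⊓ y).1 := lb_mem_inf.2 ⟨hx, hy⟩
    rw [h, lb_bot] at h1
    exact h1
  · intro h
    apply lb_ext
    rw [lb_bot]
    apply Set.Subset.antisymm
    · intro p hp
      exact h p (lb_mem_inf.1 hp).1 (lb_mem_inf.1 hp).2
    · exact (x ⊓ y).2.2

theorem sup_top_iff {x y : LB B} : x ⊔ y = ⊤ ↔ ∀ p, p ∈ x.1 ∨ p ∈ y.1 := by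
  constructor
  · intro h p
    have h1 : p ∈ (x ⊔ y).1 := by rw [h, lb_top]; trivial
    exact lb_mem_sup.1 h1
  · intro h
    apply lb_ext
    rw [lb_top]
    exact Set.eq_univ_of_forall fun p => lb_mem_sup.2 (h p)

theorem cpl_inf {c d : LB B} (hc : Cpl c) (hd : Cpl d) : Cpl (c ⊓ d) := by
  obtain ⟨c', h1, h2⟩ := hc
  obtain ⟨d', h3, h4⟩ := hd
  refine ⟨c' ⊔ d', ?_, ?_⟩
  · rw [inf_bot_iff] at h1 h3 ⊢
    intro p hp hp'
    obtain ⟨a1, a2⟩ := lb_mem_inf.1 hp
    rcases lb_mem_sup.1 hp' with h | h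
    · exact h1 p a1 h
    · exact h3 p a2 h
  · rw [sup_top_iff] at h2 h4 ⊢
    intro p
    rcases h2 p with h | h
    · rcases h4 p with h' | h'
      · exact Or.inl (lb_mem_inf.2 ⟨h, h'⟩)
      · exact Or.inr (lb_mem_sup.2 (Or.inr h'))
    · exact Or.inr (lb_mem_sup.2 (Or.inl h))

end

theorem taskD4' : TaskD4 := by
  intro d1 d2 B hB V A hV k
  have hxp : ∀ j, xp j ∉ B.1 := by
    intro j h
    rw [hB] at h
    have h2 := congrFun (Set.mem_singleton_iff.1 h) j
    simp [xp, zz] at h2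
  have hRc : ∀ (c : LB B) (j : ℕ), j ∈ Rc c.1 ↔ xp j ∈ c.1 := fun c j => Iff.rfl
  induction k with
  | zero =>
    intro c hc
    exact not_congr (hV 0 c hc)
  | succ k ih =>
    intro c hc
    constructor
    · rintro ⟨h1, h2⟩
      refine ⟨fun hk => ?_, fun hk => ?_⟩
      · obtain ⟨c', hc', hle, hg, ht⟩ := h1 hk
        exact ⟨Rc c'.1, d1 B hB c' hc', fun j hj => hle hj, (hV _ c' hc').1 hg, (ih c' hc').1 ht⟩
      · intro R' R'' cR' cR'' hdis hun hcr
        obtain ⟨e, e', he1, he2, he3, he4⟩ := d2 B hB R' cR'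
        have hce : Cpl e := ⟨e', he1, he2⟩
        have hce' : Cpl e' := ⟨e, by rw [inf_comm]; exact he1, by rw [sup_comm]; exact he2⟩
        have g1 : Rc (e ⊓ c).1 = R' := by
          ext j
          rw [hRc, lb_mem_inf, ← hRc, ← hRc, he3, ← hun]
          constructor
          · exact fun h => h.1
          · exact fun h => ⟨h, Or.inl h⟩
        have g2 : Rc (e' ⊓ c).1 = R'' := by
          ext j
          rw [hRc, lb_mem_inf, ← hRc, ← hRc, he4, ← hun]
          constructor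
          · rintro ⟨h3, h4 | h4⟩
            · exact absurd h4 h3
            · exact h4
          · exact fun h => ⟨fun h' => Set.disjoint_left.1 hdis h' h, Or.inr h⟩
        have k1 := cpl_inf hce hc
        have k2 := cpl_inf hce' hc
        have h3 := h2 hk (e ⊓ c) (e' ⊓ c) k1 k2 (by
          rw [inf_bot_iff] at he1 ⊢
          intro p hp hp'
          exact he1 p (lb_mem_inf.1 hp).1 (lb_mem_inf.1 hp').1) (by
          apply lb_ext
          ext p
          rw [lb_mem_sup, lb_mem_inf, lb_mem_inf]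
          rw [sup_top_iff] at he2
          have := he2 p
          tauto) ((hV _ _ k1).2 (by rw [g1]; exact hcr))
        have h4 := (ih _ k2).1 h3
        rwa [g2] at h4
    · rintro ⟨h1, h2⟩
      refine ⟨fun hk => ?_, fun hk => ?_⟩
      · obtain ⟨R', cR', hsub, hcr, ht⟩ := h1 hk
        obtain ⟨e, e', he1, he2, he3, he4⟩ := d2 B hB R' cR'
        have hce : Cpl e := ⟨e', he1, he2⟩
        have k1 := cpl_inf hce hc
        have g1 : Rc (e ⊓ c).1 = R' := by
          ext j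
          rw [hRc, lb_mem_inf, ← hRc, ← hRc, he3]
          constructor
          · exact fun h => h.1
          · exact fun h => ⟨h, hsub h⟩
        refine ⟨e ⊓ c, k1, inf_le_right, (hV _ _ k1).2 (by rw [g1]; exact hcr), (ih _ k1).2 ?_⟩
        rw [g1]; exact ht
      · intro c' c'' hc' hc'' hbot hsup hg
        have h3 := h2 hk (Rc c'.1) (Rc c''.1) (d1 B hB c' hc') (d1 B hB c'' hc'') (by
          rw [Set.disjoint_left]
          intro j hj hj'
          exact hxp j (inf_bot_iff.1 hbot _ hj hj')) (by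
          ext j
          rw [← hsup, hRc, lb_mem_sup]
          exact Iff.rfl) ((hV _ c' hc').1 hg)
        exact (ih c'' hc'').2 h3

end Pool.Agent.H62R3.PI
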