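import Pool.Agent.H572R4.Stmts

/-! Project H572-PI: tasks D5 and D6. -/

set_option autoImplicit false

namespace Pool.Agent.H645R3.PI56

open Pool.Agent.Helper446 Pool.Agent.Helper446.Defs Pool.Agent.Helper446.CB
  Pool.Agent.Helper446.CB.Ix Pool.Agent.H572R4 Pool.Agent.Helper446.RE

theorem get_re {α : Type} [Primcodable α] {f : α → List Bool} {g : α → ℕ} (hf : Computable f)
    (hg : Computable g) : REPred fun a => (f a)[g a]? = some true :=
  RE.eq (Computable.list_getElem?.comp hf hg) (Computable.const (some true))

theorem seg_get {x : ℕ → Bool} {n i : ℕ} : (seg x n)[i]? = some true ↔ i < n ∧ x i = true := by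
  constructor
  · intro h
    have hin : i < n := by
      by_contra hcon
      rw [List.getElem?_eq_none (by rw [seg_length]; omega)] at h
      cases h
    rw [seg_getElem? x hin] at h
    exact ⟨hin, by simpa using h⟩
  · rintro ⟨h1, h2⟩
    rw [seg_getElem? x h1, h2]

/-- Task D5. -/
theorem taskD5 : TaskD5 := by
  unfold TaskD5
  rw [isPi01_iff]
  refine ⟨{σ : List Bool | ∃ i j : ℕ, i < j ∧ σ[i]? = some true ∧ σ[j]? = some true}, ?_, ?_⟩
  · refine exN (p := fun (σ : List Bool) i => ∃ j : ℕ, i < j ∧ σ[i]? = some true ∧
      σ[j]? = some true) ?_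
    refine exN (p := fun (z : List Bool × ℕ) j => z.2 < j ∧ z.1[z.2]? = some true ∧
      z.1[j]? = some true) ?_
    have h1 : Computable fun z : (List Bool × ℕ) × ℕ => z.1.1 := by fun_prop
    have h2 : Computable fun z : (List Bool × ℕ) × ℕ => z.1.2 := by fun_prop
    have h3 : Computable fun z : (List Bool × ℕ) × ℕ => z.2 := by fun_prop
    exact RE.and (RE.lt h2 h3) (RE.and (get_re h1 h2) (get_re h1 h3))
  · ext x
    simp only [pS, Set.mem_ofPred_eq]
    constructor
    · rintro h n ⟨i, j, hij, h1, h2⟩
      rw [seg_get] at h1 h2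
      rcases h with h | ⟨k, h⟩
      · rw [h] at h1
        simp [zz] at h1
      · rw [h] at h1 h2
        simp only [xp, decide_eq_true_eq] at h1 h2
        omega
    · intro h
      by_cases hx : ∃ k, x k = true
      · obtain ⟨k, hk⟩ := hx
        right
        refine ⟨k, funext fun i => ?_⟩
        by_cases hik : i = k
        · rw [hik, hk]; simp [xp]
        · have hf : x i = false := by
            by_contra hcon
            have hi : x i = true := by simpa using hcon
            rcases Nat.lt_or_gt_of_ne hik with h1 | h1
            · exact h (k + 1) ⟨i, k, h1, seg_get.2 ⟨by omega, hi⟩, seg_get.2 ⟨by omega, hk⟩⟩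
            · exact h (i + 1) ⟨k, i, h1, seg_get.2 ⟨by omega, hk⟩, seg_get.2 ⟨by omega, hi⟩⟩
          rw [hf]
          simp [xp, hik]
      · left
        push Not at hx
        funext i
        simpa [zz] using hx i

/-- Task D6. -/
theorem taskD6 : TaskD6 := by
  intro C hC
  rw [isPi01_iff]
  refine ⟨{σ : List Bool | (∃ i j k : ℕ, (i < j ∧ j < k) ∧ σ[i]? = some true ∧ σ[j]? = some true ∧
      σ[k]? = some true) ∨ ∃ j m : ℕ, σ[j]? = some true ∧ σ[j + 1 + m]? = some true ∧
      (j.unpair.1 ≤ m.unpair.1 ∨ m.unpair.2 ∉ C)}, ?_, ?_⟩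
  · refine RE.or ?_ ?_
    · refine exN (p := fun (σ : List Bool) i => ∃ j k : ℕ, (i < j ∧ j < k) ∧ σ[i]? = some true ∧
        σ[j]? = some true ∧ σ[k]? = some true) ?_
      refine exN (p := fun (z : List Bool × ℕ) j => ∃ k : ℕ, (z.2 < j ∧ j < k) ∧
        z.1[z.2]? = some true ∧ z.1[j]? = some true ∧ z.1[k]? = some true) ?_
      refine exN (p := fun (z : (List Bool × ℕ) × ℕ) k => (z.1.2 < z.2 ∧ z.2 < k) ∧
        z.1.1[z.1.2]? = some true ∧ z.1.1[z.2]? = some true ∧ z.1.1[k]? = some true) ?_
      have h1 : Computable fun z : ((List Bool × ℕ) × ℕ) × ℕ => z.1.1.1 := by fun_prop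
      have h2 : Computable fun z : ((List Bool × ℕ) × ℕ) × ℕ => z.1.1.2 := by fun_prop
      have h3 : Computable fun z : ((List Bool × ℕ) × ℕ) × ℕ => z.1.2 := by fun_prop
      have h4 : Computable fun z : ((List Bool × ℕ) × ℕ) × ℕ => z.2 := by fun_prop
      exact RE.and (RE.and (RE.lt h2 h3) (RE.lt h3 h4))
        (RE.and (get_re h1 h2) (RE.and (get_re h1 h3) (get_re h1 h4)))
    · refine exN (p := fun (σ : List Bool) j => ∃ m : ℕ, σ[j]? = some true ∧
        σ[j + 1 + m]? = some true ∧ (j.unpair.1 ≤ m.unpair.1 ∨ m.unpair.2 ∉ C)) ?_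
      refine exN (p := fun (z : List Bool × ℕ) m => z.1[z.2]? = some true ∧
        z.1[z.2 + 1 + m]? = some true ∧ (z.2.unpair.1 ≤ m.unpair.1 ∨ m.unpair.2 ∉ C)) ?_
      have h1 : Computable fun z : (List Bool × ℕ) × ℕ => z.1.1 := by fun_prop
      have h2 : Computable fun z : (List Bool × ℕ) × ℕ => z.1.2 := by fun_prop
      have h3 : Computable fun z : (List Bool × ℕ) × ℕ => z.2 := by fun_prop
      have h4 : Computable fun z : (List Bool × ℕ) × ℕ => z.1.2 + 1 + z.2 := by fun_prop
      have h5 : Computable fun z : (List Bool × ℕ) × ℕ => z.1.2.unpair.1 :=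
        (Computable.fst.comp (Computable.unpair.comp h2))
      have h6 : Computable fun z : (List Bool × ℕ) × ℕ => z.2.unpair.1 :=
        (Computable.fst.comp (Computable.unpair.comp h3))
      have h7 : Computable fun z : (List Bool × ℕ) × ℕ => z.2.unpair.2 :=
        (Computable.snd.comp (Computable.unpair.comp h3))
      exact RE.and (get_re h1 h2) (RE.and (get_re h1 h4)
        (RE.or (RE.le h5 h6) (RE.comp hC h7)))
  · ext x
    simp only [qS, pS, Set.mem_ofPred_eq]
    constructor
    · rintro h n (⟨i, j, k, ⟨hij, hjk⟩, h1, h2, h3⟩ | ⟨j, m, h1, h2, h3⟩)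
      · rw [seg_get] at h1 h2 h3
        rcases h with (h | ⟨a, h⟩) | ⟨a, b, h4, h5, h⟩
        · rw [h] at h1
          simp [zz] at h1
        · rw [h] at h1 h2
          simp only [xp, decide_eq_true_eq] at h1 h2
          omega
        · rw [h] at h1 h2 h3
          simp only [qp, decide_eq_true_eq] at h1 h2 h3
          omega
      · rw [seg_get] at h1 h2
        rcases h with (h | ⟨a, h⟩) | ⟨a, b, h4, h5, h⟩
        · rw [h] at h1
          simp [zz] at h1
        · rw [h] at h1 h2
          simp only [xp, decide_eq_true_eq] at h1 h2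
          omega
        · rw [h] at h1 h2
          simp only [qp, decide_eq_true_eq] at h1 h2
          have e1 : j = a := by omega
          have e2 : m = b := by omega
          rw [e1, e2] at h3
          rcases h3 with h3 | h3
          · omega
          · exact h3 h5
    · intro h
      have h1 : ∀ i j k, i < j → j < k → x i = true → x j = true → x k = true → False := by
        intro i j k hij hjk hi hj hk
        exact h (k + 1) (Or.inl ⟨i, j, k, ⟨hij, hjk⟩, seg_get.2 ⟨by omega, hi⟩,
          seg_get.2 ⟨by omega, hj⟩, seg_get.2 ⟨by omega, hk⟩⟩)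
      by_cases hx : ∃ j m, x j = true ∧ x (j + 1 + m) = true
      · obtain ⟨j, m, hj, hm⟩ := hx
        right
        have h2 : ¬ (j.unpair.1 ≤ m.unpair.1 ∨ m.unpair.2 ∉ C) := fun hh =>
          h (j + 1 + m + 1) (Or.inr ⟨j, m, seg_get.2 ⟨by omega, hj⟩,
            seg_get.2 ⟨by omega, hm⟩, hh⟩)
        push Not at h2
        refine ⟨j, m, h2.1, h2.2, funext fun i => ?_⟩
        by_cases hi : i = j ∨ i = j + 1 + m
        · have : x i = true := by
            rcases hi with hi | hi
            · rw [hi, hj]
            · rw [hi, hm]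
          rw [this]
          simp [qp, hi]
        · have hf : x i = false := by
            by_contra hcon
            have hi' : x i = true := by simpa using hcon
            push Not at hi
            rcases Nat.lt_or_gt_of_ne hi.1 with g1 | g1
            · exact h1 i j (j + 1 + m) g1 (by omega) hi' hj hm
            · rcases Nat.lt_or_gt_of_ne hi.2 with g2 | g2
              · exact h1 j i (j + 1 + m) g1 g2 hj hi' hm
              · exact h1 j (j + 1 + m) i (by omega) g2 hj hm hi'
          rw [hf]
          simp [qp, hi]
      · left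
        push Not at hx
        by_cases hx' : ∃ k, x k = true
        · obtain ⟨k, hk⟩ := hx'
          right
          refine ⟨k, funext fun i => ?_⟩
          by_cases hik : i = k
          · rw [hik, hk]; simp [xp]
          · have hf : x i = false := by
              by_contra hcon
              have hi : x i = true := by simpa using hcon
              rcases Nat.lt_or_gt_of_ne hik with g1 | g1
              · have := hx i (k - i - 1) hi
                rw [show i + 1 + (k - i - 1) = k by omega] at this
                exact this hk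
              · have := hx k (i - k - 1) hk
                rw [show k + 1 + (i - k - 1) = i by omega] at this
                exact this hi
            rw [hf]
            simp [xp, hik]
        · left
          push Not at hx'
          funext i
          simpa [zz] using hx' i

end Pool.Agent.H645R3.PI56
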