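import Pool.Agent.H572R4.Stmts

set_option autoImplicit false

namespace Pool.Agent.H572R4

open Pool.Agent.Helper446.Defs Pool.Agent.Helper446.CB Pool.Agent.Helper446.CB.Ix

namespace D7H873

theorem xp_ne (j : ℕ) : xp j ≠ zz := by
  intro h
  have := congrFun h j
  simp [xp, zz] at this

end D7H873

open D7H873 in
theorem taskD7 : TaskD7 := by
  intro h10 B hB P hP a
  have hzB : zz ∈ B.1 := by rw [hB]; rfl
  constructor
  · rintro ⟨hat, hle⟩
    have hza : zz ∈ a.1 := a.2.2 hzB
    have hex : ∃ x ∈ a.1, x ≠ zz := by
      by_contra hno
      push Not at hno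
      apply hat.1
      apply Subtype.ext
      show a.1 = B.1
      refine Eq.trans ?_ hB.symm
      ext x
      constructor
      · intro hx
        exact hno x hx
      · intro hx
        rw [Set.mem_singleton_iff.1 hx]
        exact hza
    obtain ⟨x, hx, hxz⟩ := hex
    have hxP : x ∈ pS := by
      have : x ∈ P.1 := hle hx
      rwa [hP] at this
    rcases hxP with h | ⟨j, hj⟩
    · exact absurd h hxz
    · refine ⟨j, ?_⟩
      let b : LB B := ⟨{zz, xp j}, h10 j, by
        rw [hB]; intro y hy; left; exact hy⟩
      have hba : b ≤ a := by
        rw [lb_le]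
        intro y hy
        rcases hy with hy | hy
        · rw [hy]; exact hza
        · rw [Set.mem_singleton_iff.1 hy, ← hj]; exact hx
      rcases hat.le_iff.1 hba with hb | hb
      · exfalso
        have h1 : b.1 = B.1 := congrArg Subtype.val hb
        have h2 : xp j ∈ B.1 := by
          rw [← h1]; right; rfl
        rw [hB] at h2
        exact xp_ne j h2
      · rw [← hb]
  · rintro ⟨j, hj⟩
    refine ⟨⟨?_, ?_⟩, ?_⟩
    · intro hb
      have h1 : a.1 = B.1 := congrArg Subtype.val hb
      have h2 : xp j ∈ B.1 := by
        rw [← h1, hj]; right; rfl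
      rw [hB] at h2
      exact xp_ne j h2
    · intro b hb
      apply Subtype.ext
      show b.1 = B.1
      have hba : b.1 ⊆ a.1 := hb.le
      have hzb : zz ∈ b.1 := b.2.2 hzB
      have hxb : xp j ∉ b.1 := by
        intro hx
        apply hb.not_ge
        rw [lb_le, hj]
        intro y hy
        rcases hy with hy | hy
        · rw [hy]; exact hzb
        · rw [Set.mem_singleton_iff.1 hy]; exact hx
      refine Eq.trans ?_ hB.symm
      ext y
      constructor
      · intro hy
        have h1 := hba hy
        rw [hj] at h1
        rcases h1 with h1 | h1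
        · exact h1
        · exfalso
          rw [Set.mem_singleton_iff.1 h1] at hy
          exact hxb hy
      · intro hy
        rw [Set.mem_singleton_iff.1 hy]
        exact hzb
    · rw [lb_le, hj, hP]
      intro y hy
      rcases hy with hy | hy
      · left; exact hy
      · right; exact ⟨j, hy⟩

end Pool.Agent.H572R4
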