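import Pool.Agent.H572R4.Stmts

/-!
Project H572-PI: `TaskD8`.
-/

set_option autoImplicit false

namespace Pool.Agent.H85R3.PI

open Pool.Agent.H572R4 Pool.Agent.Helper446 Pool.Agent.Helper446.Defs Pool.Agent.Helper446.CB
  Pool.Agent.Helper446.CB.Ix

theorem qp_inj {j m m' : ℕ} (h : qp j m = qp j m') : m = m' := by
  have h1 : qp j m (j + 1 + m) = qp j m' (j + 1 + m) := congrFun h (j + 1 + m)
  have h3 : qp j m (j + 1 + m) = true := by simp [qp]
  rw [h3] at h1
  have h2 : (j + 1 + m = j ∨ j + 1 + m = j + 1 + m') := of_decide_eq_true h1.symm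
  omega

theorem qp_ne_zz (j m : ℕ) : qp j m ≠ zz := by
  intro h
  have h1 := congrFun h j
  simp [qp, zz] at h1

theorem qp_ne_xp (j m : ℕ) : qp j m ≠ xp j := by
  intro h
  have h1 := congrFun h (j + 1 + m)
  have h2 : (j + 1 + m ≠ j) := by omega
  simp [qp, xp, h2] at h1

theorem xp_ne_zz (j : ℕ) : xp j ≠ zz := by
  intro h
  have h1 := congrFun h j
  simp [xp, zz] at h1

/-- the bad strings -/
def Bad (C : Set ℕ) (j i : ℕ) (σ : List Bool) (p p' : ℕ) : Prop :=
  σ[p]? = some true ∧ σ[p']? = some true ∧
    (p < j ∨ (j < p ∧ p < p') ∨ (j < p ∧ σ[j]? = some false) ∨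
      (j < p ∧ (p - (j + 1)).unpair.1 ≠ i) ∨ (j < p ∧ (p - (j + 1)).unpair.2 ∉ C))

/-- the class -/
def Sji (C : Set ℕ) (j i : ℕ) : Set (ℕ → Bool) :=
  {x | x = zz ∨ x = xp j ∨ ∃ k ∈ C, x = qp j (Nat.pair i k)}

theorem sji_eq (C : Set ℕ) (j i : ℕ) :
    Sji C j i = {x | ∀ n, seg x n ∉ {σ : List Bool | ∃ p p' : ℕ, Bad C j i σ p p'}} := by
  ext x
  simp only [Set.mem_ofPred_eq]
  constructor
  · intro hx n hn
    obtain ⟨p, p', h1, h2, h3⟩ := hn
    have hp : p < n := by
      by_contra hc
      rw [List.getElem?_eq_none (by rw [seg_length]; omega)] at h1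
      simp at h1
    have hp' : p' < n := by
      by_contra hc
      rw [List.getElem?_eq_none (by rw [seg_length]; omega)] at h2
      simp at h2
    rw [seg_getElem? x hp] at h1
    rw [seg_getElem? x hp'] at h2
    have e1 : x p = true := by simpa using h1
    have e2 : x p' = true := by simpa using h2
    rcases hx with hx | hx | ⟨k, hk, hx⟩
    · rw [hx] at e1
      simp [zz] at e1
    · rw [hx] at e1 e2
      have a1 : p = j := by simpa [xp] using e1
      have a2 : p' = j := by simpa [xp] using e2
      omega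
    · rw [hx] at e1 e2
      have a1 : p = j ∨ p = j + 1 + Nat.pair i k := by simpa [qp] using e1
      have a2 : p' = j ∨ p' = j + 1 + Nat.pair i k := by simpa [qp] using e2
      rcases h3 with h3 | h3 | h3 | h3 | h3
      · omega
      · omega
      · have hj : j < n := by omega
        rw [seg_getElem? x hj, hx] at h3
        have := h3.2
        simp [qp] at this
      · have a3 : p - (j + 1) = Nat.pair i k := by omega
        rw [a3, Nat.unpair_pair] at h3
        exact h3.2 rfl
      · have a3 : p - (j + 1) = Nat.pair i k := by omega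
        rw [a3, Nat.unpair_pair] at h3
        exact h3.2 hk
  · intro h
    have key : ∀ p p' : ℕ, x p = true → x p' = true →
        ¬ (p < j ∨ (j < p ∧ p < p') ∨ (j < p ∧ x j = false) ∨
      (j < p ∧ (p - (j + 1)).unpair.1 ≠ i) ∨ (j < p ∧ (p - (j + 1)).unpair.2 ∉ C)) := by
      intro p p' h1 h2 h3
      refine h (p + p' + j + 1) ⟨p, p', ?_, ?_, ?_⟩
      · rw [seg_getElem? x (by omega), h1]
      · rw [seg_getElem? x (by omega), h2]
      · rw [seg_getElem? x (by omega)]
        simpa using h3
    by_cases hj : x j = true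
    · by_cases hp : ∃ p, j < p ∧ x p = true
      · obtain ⟨p, hp1, hp2⟩ := hp
        have k1 := key p p hp2 hp2
        push Not at k1
        obtain ⟨-, -, -, k4, k5⟩ := k1
        refine Or.inr (Or.inr ⟨(p - (j + 1)).unpair.2, k5 hp1, ?_⟩)
        have k6 : Nat.pair i (p - (j + 1)).unpair.2 = p - (j + 1) := by
          rw [← k4 hp1, Nat.pair_unpair]
        rw [k6]
        funext t
        by_cases ht : x t = true
        · have a1 := key t t ht ht
          have a2 := key t p ht hp2
          have a3 := key p t hp2 ht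
          have a4 : t = j ∨ t = p := by
            by_contra hc
            push Not at hc
            rcases lt_trichotomy t j with h4 | h4 | h4
            · exact a1 (Or.inl h4)
            · exact hc.1 h4
            · rcases lt_trichotomy t p with h5 | h5 | h5
              · exact a2 (Or.inr (Or.inl ⟨h4, h5⟩))
              · exact hc.2 h5
              · exact a3 (Or.inr (Or.inl ⟨hp1, h5⟩))
          rw [ht]
          symm
          simp only [qp, decide_eq_true_eq]
          omega
        · have a1 : t ≠ j := fun hh => ht (by rw [hh]; exact hj)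
          have a2 : t ≠ p := fun hh => ht (by rw [hh]; exact hp2)
          rw [Bool.eq_false_iff.2 ht]
          symm
          simp only [qp, decide_eq_false_iff_not]
          omega
      · right; left
        funext t
        by_cases ht : x t = true
        · have a1 := key t t ht ht
          have a4 : t = j := by
            rcases lt_trichotomy t j with h4 | h4 | h4
            · exact absurd (Or.inl h4) a1
            · exact h4
            · exact absurd ⟨t, h4, ht⟩ hp
          rw [ht]
          symm
          simp only [xp, decide_eq_true_eq]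
          exact a4
        · have a1 : t ≠ j := fun hh => ht (by rw [hh]; exact hj)
          rw [Bool.eq_false_iff.2 ht]
          symm
          simp only [xp, decide_eq_false_iff_not]
          exact a1
    · left
      funext t
      by_cases ht : x t = true
      · have a1 := key t t ht ht
        exfalso
        rcases lt_trichotomy t j with h4 | h4 | h4
        · exact a1 (Or.inl h4)
        · exact hj (by rw [← h4]; exact ht)
        · exact a1 (Or.inr (Or.inr (Or.inl ⟨h4, Bool.eq_false_iff.2 hj⟩)))
      · exact Bool.eq_false_iff.2 ht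

theorem cget {α : Type*} [Primcodable α] {f : α → List Bool} {g : α → ℕ} (hf : Computable f)
    (hg : Computable g) : Computable fun a => (f a)[g a]? :=
  Computable.list_getElem?.comp hf hg

theorem csub {α : Type*} [Primcodable α] {f g : α → ℕ} (hf : Computable f)
    (hg : Computable g) : Computable fun a => f a - g a :=
  (Primrec.nat_sub.to_comp : Computable₂ _).comp hf hg

theorem re_bad (C : Set ℕ) (hC : REPred fun x => x ∉ C) (j i : ℕ) :
    REPred fun σ : List Bool => σ ∈ {σ : List Bool | ∃ p p' : ℕ, Bad C j i σ p p'} := by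
  have hs : Computable fun y : (List Bool × ℕ) × ℕ => y.1.1 := Computable.fst.comp Computable.fst
  have hp : Computable fun y : (List Bool × ℕ) × ℕ => y.1.2 := Computable.snd.comp Computable.fst
  have hp' : Computable fun y : (List Bool × ℕ) × ℕ => y.2 := Computable.snd
  have hj : Computable fun _ : (List Bool × ℕ) × ℕ => j := Computable.const j
  have hd : Computable fun y : (List Bool × ℕ) × ℕ => y.1.2 - (j + 1) :=
    csub hp (Computable.const (j + 1))
  have hu : Computable fun y : (List Bool × ℕ) × ℕ => (y.1.2 - (j + 1)).unpair :=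
    Primrec.unpair.to_comp.comp hd
  refine RE.exN (p := fun (σ : List Bool) (p : ℕ) => ∃ p' : ℕ, Bad C j i σ p p') ?_
  refine RE.exN (p := fun (y : List Bool × ℕ) (p' : ℕ) => Bad C j i y.1 y.2 p') ?_
  refine RE.and (RE.eq (cget hs hp) (Computable.const (some true))) ?_
  refine RE.and (RE.eq (cget hs hp') (Computable.const (some true))) ?_
  refine RE.or (RE.lt hp hj) ?_
  refine RE.or (RE.and (RE.lt hj hp) (RE.lt hp hp')) ?_
  refine RE.or (RE.and (RE.lt hj hp) (RE.eq (cget hs hj) (Computable.const (some false)))) ?_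
  refine RE.or (RE.and (RE.lt hj hp) (RE.ne (Computable.fst.comp hu) (Computable.const i))) ?_
  exact RE.and (RE.lt hj hp) (RE.comp hC (Computable.snd.comp hu))

theorem sji_pi (C : Set ℕ) (hC : REPred fun x => x ∉ C) (j i : ℕ) : IsPi01 (Sji C j i) :=
  isPi01_iff.2 ⟨_, re_bad C hC j i, sji_eq C j i⟩

theorem taskD8 : TaskD8 := by
  intro B hB C hC Q hQ j m a hm ha
  have hsub : ∀ i, B.1 ⊆ Sji C j i := by
    intro i x hx
    rw [hB] at hx
    exact Or.inl hx
  let S : ℕ → LB B := fun i => ⟨Sji C j i, sji_pi C hC.2.1 j i, hsub i⟩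
  refine ⟨(List.range m).map S, by simp, ?_, ?_, ?_⟩
  · intro d hd
    obtain ⟨i, hi, rfl⟩ := List.mem_map.1 hd
    have him : i < m := List.mem_range.1 hi
    rw [lb_le, hQ]
    rintro x (hx | hx | ⟨k, hk, hx⟩)
    · exact Or.inl (Or.inl hx)
    · exact Or.inl (Or.inr ⟨j, hx⟩)
    · exact Or.inr ⟨j, Nat.pair i k, by rw [Nat.unpair_pair]; exact lt_of_lt_of_le him hm,
        by rw [Nat.unpair_pair]; exact hk, hx⟩
  · rw [List.pairwise_map]
    refine List.Pairwise.imp ?_ List.pairwise_lt_range
    intro i i' hii
    rw [lb_le, lb_inf, ha]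
    rintro x ⟨hx1, hx2⟩
    rcases hx1 with hx | hx | ⟨k, hk, hx⟩
    · exact Or.inl hx
    · exact Or.inr hx
    · rcases hx2 with hx' | hx' | ⟨k', hk', hx'⟩
      · exact Or.inl hx'
      · exact Or.inr hx'
      · exfalso
        have h1 := qp_inj (hx.symm.trans hx')
        have h2 : (Nat.pair i k).unpair = (Nat.pair i' k').unpair := by rw [h1]
        rw [Nat.unpair_pair, Nat.unpair_pair] at h2
        have h3 : i = i' := congrArg Prod.fst h2
        omega
  · intro d hd c hc hac hle
    obtain ⟨i, hi, rfl⟩ := List.mem_map.1 hd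
    obtain ⟨cb, h1, h2⟩ := hc
    have h1' : c.1 ∩ cb.1 = {zz} := by
      have := congrArg Subtype.val h1
      rw [lb_inf, lb_bot] at this
      exact this.trans hB
    have h2' : c.1 ∪ cb.1 = Set.univ := by
      have := congrArg Subtype.val h2
      rw [lb_sup, lb_top] at this
      exact this
    have hxc : xp j ∈ c.1 := hac (by rw [ha]; right; rfl)
    have hxb : xp j ∉ cb.1 := by
      intro h
      have : xp j ∈ c.1 ∩ cb.1 := ⟨hxc, h⟩
      rw [h1'] at this
      exact xp_ne_zz j this
    have hcl : IsClosed cb.1 := IsPi01.isClosed cb.2.1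
    have hn : ∃ n, ∀ y ∈ cb.1, seg y n ≠ seg (xp j) n := by
      by_contra hcon
      push Not at hcon
      exact hxb (mem_closed_of_seg hcl hcon)
    obtain ⟨n, hn⟩ := hn
    obtain ⟨k, hk, hkn⟩ := hC.1.exists_gt n
    have hseg : seg (qp j (Nat.pair i k)) n = seg (xp j) n := by
      rw [seg_eq_iff]
      intro t ht
      have h3 : k ≤ Nat.pair i k := Nat.right_le_pair i k
      have h4 : t ≠ j + 1 + Nat.pair i k := by omega
      simp [qp, xp, h4]
    have h5 : qp j (Nat.pair i k) ∉ cb.1 := fun h => hn _ h hseg
    have h6 : qp j (Nat.pair i k) ∈ c.1 := by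
      have : qp j (Nat.pair i k) ∈ c.1 ∪ cb.1 := by rw [h2']; trivial
      exact this.resolve_right h5
    have h7 : qp j (Nat.pair i k) ∈ a.1 := hle ⟨h6, Or.inr (Or.inr ⟨k, hk, rfl⟩)⟩
    rw [ha] at h7
    rcases h7 with h7 | h7
    · exact qp_ne_zz _ _ h7
    · exact qp_ne_xp _ _ h7

end Pool.Agent.H85R3.PI
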