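import Pool.Agent.H572R4.Stmts

set_option autoImplicit false

namespace Pool.Agent.H572R4.D9h564

open Pool.Agent.H572R4 Pool.Agent.Helper446.Defs Pool.Agent.Helper446.CB Pool.Agent.Helper446

theorem seg_comp (j i : ℕ) : Computable fun x : ℕ × ℕ => seg (qp j (Nat.pair i x.1)) x.2 := by
  have h1 : Primrec fun x : ℕ × ℕ => (List.range x.2).map
      (fun l => (l == j) || (l == j + 1 + Nat.pair i x.1)) := by
    apply Primrec.list_map
    · exact Primrec.list_range.comp Primrec.snd
    · apply Primrec.or.comp
      · exact Primrec.beq.comp Primrec.snd (Primrec.const j)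
      · apply Primrec.beq.comp Primrec.snd
        exact Primrec.nat_add.comp (Primrec.const (j + 1))
          (Primrec₂.natPair.comp (Primrec.const i) (Primrec.fst.comp Primrec.fst))
  refine h1.to_comp.of_eq fun x => ?_
  unfold seg
  apply List.map_congr_left
  intro l _
  unfold qp
  by_cases h2 : l = j <;> by_cases h3 : l = j + 1 + Nat.pair i x.1 <;> simp [h2, h3]

theorem re_out {B : EPi} (d : LB B) (j i : ℕ) :
    REPred (fun k => k ∈ {k | qp j (Nat.pair i k) ∉ d.1}) := by
  obtain ⟨W, hW, hd⟩ := isPi01_iff.1 d.2.1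
  refine (RE.exN (p := fun k n => seg (qp j (Nat.pair i k)) n ∈ W)
    (RE.comp hW (seg_comp j i))).of_eq fun k => ?_
  have : k ∈ {k | qp j (Nat.pair i k) ∉ d.1} ↔ ¬ (∀ n, seg (qp j (Nat.pair i k)) n ∉ W) := by
    have h1 : qp j (Nat.pair i k) ∈ d.1 ↔ ∀ n, seg (qp j (Nat.pair i k)) n ∉ W := by
      rw [hd]; exact Iff.rfl
    exact not_congr h1
  rw [this]
  push Not
  exact Iff.rfl

theorem qp_self (j m : ℕ) : qp j m j = true := by simp [qp]

theorem qp_second (j m : ℕ) : qp j m (j + 1 + m) = true := by simp [qp]

theorem taskD9 : TaskD9 := by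
  intro B hB C hC Q hQ j m a ha hNN
  obtain ⟨hCinf, hCre, hCoh⟩ := hC
  obtain ⟨D, hlen, hle, hpw, hacc⟩ := hNN
  have claim : ∀ d ∈ D, ∃ i, i < j.unpair.1 ∧
      (C ∩ {k | qp j (Nat.pair i k) ∉ d.1}).Finite := by
    intro d hd
    by_contra hno
    push Not at hno
    have hfin : ∀ i < j.unpair.1, (C \ {k | qp j (Nat.pair i k) ∉ d.1}).Finite := fun i hi => by
      rcases hCoh _ (re_out d j i) with h | h
      · exact absurd h (hno i hi)
      · exact h
    have hM : {m' : ℕ | m'.unpair.1 < j.unpair.1 ∧ m'.unpair.2 ∈ C ∧ qp j m' ∈ d.1}.Finite := by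
      apply Set.Finite.subset (Set.Finite.biUnion (Set.finite_Iio j.unpair.1)
        (fun i hi => (hfin i hi).image (fun k => Nat.pair i k)))
      rintro m' ⟨h1, h2, h3⟩
      refine Set.mem_biUnion (x := m'.unpair.1) h1 ⟨m'.unpair.2, ⟨h2, ?_⟩, Nat.pair_unpair m'⟩
      intro h4
      apply h4
      rw [Nat.pair_unpair]
      exact h3
    obtain ⟨t0, ht0⟩ := hM.bddAbove
    have ht : ∀ m' : ℕ, m'.unpair.1 < j.unpair.1 → m'.unpair.2 ∈ C → qp j m' ∈ d.1 → m' < t0 + 1 :=
      fun m' h1 h2 h3 => Nat.lt_succ_of_le (ht0 ⟨h1, h2, h3⟩)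
    set nn := j + 1 + (t0 + 1) with hnn
    have hzz : zz ∉ cyl (seg (xp j) nn) := by
      rw [mem_cyl_seg, seg_eq_iff]
      intro h
      have := h j (by omega)
      simp [zz, xp] at this
    have hBz : B.1 ⊆ {zz} ∪ cyl (seg (xp j) nn) := by rw [hB]; exact Set.subset_union_left
    have hBc : B.1 ⊆ (cyl (seg (xp j) nn))ᶜ := by
      rw [hB]
      intro x hx
      rw [Set.mem_singleton_iff.1 hx]
      exact hzz
    have hpz : IsPi01 ({zz} : Set (ℕ → Bool)) := by rw [← hB]; exact B.2
    let c : LB B := ⟨{zz} ∪ cyl (seg (xp j) nn),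
      IsPi01.union hpz (IsPi01.of_clopen (isClopen_cyl _)), hBz⟩
    let c' : LB B := ⟨(cyl (seg (xp j) nn))ᶜ, IsPi01.of_clopen (isClopen_cyl _).compl, hBc⟩
    refine hacc d hd c ⟨c', ?_, ?_⟩ ?_ ?_
    · apply Subtype.ext
      have e : ({zz} ∪ cyl (seg (xp j) nn)) ∩ (cyl (seg (xp j) nn))ᶜ = B.1 := by
        rw [hB]
        ext x
        constructor
        · rintro ⟨h1 | h1, h2⟩
          · exact h1
          · exact absurd h1 h2
        · intro h1
          exact ⟨Or.inl h1, by rw [Set.mem_singleton_iff.1 h1]; exact hzz⟩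
      rw [lb_inf, lb_bot]
      exact e
    · apply Subtype.ext
      rw [lb_sup, lb_top]
      ext x
      constructor
      · intro _; trivial
      · intro _
        by_cases h : x ∈ cyl (seg (xp j) nn)
        · exact Or.inl (Or.inr h)
        · exact Or.inr h
    · rw [lb_le, ha]
      rintro x (hx | hx)
      · exact Or.inl hx
      · rw [Set.mem_singleton_iff.1 hx]
        exact Or.inr (self_mem_cyl _ _)
    · rw [lb_le, lb_inf, ha]
      rintro x ⟨hx1, hxd⟩
      rcases hx1 with hx1 | hx1
      · exact Or.inl hx1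
      · rw [mem_cyl_seg, seg_eq_iff] at hx1
        have hxQ : x ∈ Q.1 := hle d hd hxd
        rw [hQ] at hxQ
        have hxj : x j = true := by
          rw [hx1 j (by omega)]; simp [xp]
        rcases hxQ with (h0 | ⟨j', h0⟩) | ⟨j', m', h1, h2, h0⟩
        · left; exact h0
        · right
          rw [h0] at hxj
          have : j = j' := by simpa [xp] using hxj
          rw [h0, this]
          rfl
        · exfalso
          have hjj : j' = j := by
            have h3 : j = j' ∨ j = j' + 1 + m' := by
              rw [h0] at hxj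
              simpa [qp] using hxj
            rcases h3 with h3 | h3
            · exact h3.symm
            · have h4 := hx1 j' (by omega)
              rw [h0, qp_self] at h4
              have : j' = j := by simpa [xp] using h4.symm
              exact this
          subst hjj
          have h5 := ht m' h1 h2 (by rw [← h0]; exact hxd)
          have h6 := hx1 (j' + 1 + m') (by omega)
          rw [h0, qp_second] at h6
          have : j' + 1 + m' = j' := by simpa [xp] using h6.symm
          omega
  choose! f hf1 hf2 using claim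
  have hget : ∀ p : Fin D.length, D.get p ∈ D := fun p => List.get_mem D p
  have hinj : Function.Injective (fun p : Fin D.length =>
      (⟨f (D.get p), hf1 _ (hget p)⟩ : Fin j.unpair.1)) := by
    have key : ∀ p q : Fin D.length, p < q → f (D.get p) = f (D.get q) → False := by
      intro p q hpq he
      have h1 := (List.pairwise_iff_get.1 hpw) p q hpq
      have f1 := hf2 _ (hget p)
      have f2 := hf2 _ (hget q)
      rw [← he] at f2
      obtain ⟨k, hk, hk2⟩ := hCinf.exists_notMem_finite (f1.union f2)
      have g1 : qp j (Nat.pair (f (D.get p)) k) ∈ (D.get p).1 := by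
        by_contra hc
        exact hk2 (Or.inl ⟨hk, hc⟩)
      have g2 : qp j (Nat.pair (f (D.get p)) k) ∈ (D.get q).1 := by
        by_contra hc
        exact hk2 (Or.inr ⟨hk, hc⟩)
      have g3 : qp j (Nat.pair (f (D.get p)) k) ∈ a.1 := h1 ⟨g1, g2⟩
      rw [ha] at g3
      rcases g3 with g3 | g3
      · have := congrFun g3 j
        rw [qp_self] at this
        simp [zz] at this
      · have := congrFun (Set.mem_singleton_iff.1 g3) (j + 1 + Nat.pair (f (D.get p)) k)
        rw [qp_second] at this
        have h7 : j + 1 + Nat.pair (f (D.get p)) k = j := by simpa [xp] using this.symm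
        omega
    intro p q he
    have he' : f (D.get p) = f (D.get q) := congrArg Fin.val he
    rcases lt_trichotomy p q with h | h | h
    · exact (key p q h he').elim
    · exact h
    · exact (key q p h he'.symm).elim
  have := Fintype.card_le_of_injective _ hinj
  rw [Fintype.card_fin, Fintype.card_fin, hlen] at this
  exact this

end Pool.Agent.H572R4.D9h564
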