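import Pool.Agent.H572R4.Stmts

/-! H572-PI, E1: complemented elements over the empty class. -/

set_option autoImplicit false

namespace Pool.Agent.H572R4

open Pool.Agent.Helper446.Defs Pool.Agent.Helper446.CB Pool.Agent.Helper446.CB.Ix

theorem taskE1_h266 : TaskE1 := by
  classical
  intro c
  constructor
  · rintro ⟨d, h1, h2⟩
    have e1 : c.1 ∩ d.1 = ∅ := congrArg Subtype.val h1
    have e2 : c.1 ∪ d.1 = Set.univ := congrArg Subtype.val h2
    have e3 : c.1ᶜ = d.1 := by
      ext x
      constructor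
      · intro hx
        have : x ∈ c.1 ∪ d.1 := by rw [e2]; trivial
        exact this.resolve_left hx
      · intro hx hx2
        have : x ∈ c.1 ∩ d.1 := ⟨hx2, hx⟩
        rw [e1] at this
        exact this
    have hcl : IsClopen c.1 := by
      refine ⟨IsPi01.isClosed c.2.1, ?_⟩
      rw [← isClosed_compl_iff, e3]
      exact IsPi01.isClosed d.2.1
    obtain ⟨n, hn⟩ := clopen_iff.1 hcl
    refine ⟨(allStr n).filter (fun σ => σ ∈ Ext c.1), ?_⟩
    ext x
    constructor
    · intro hx
      refine ⟨seg x n, List.mem_filter.2 ⟨mem_allStr.2 (seg_length _ _), ?_⟩, ?_⟩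
      · exact decide_eq_true (seg_mem_ext hx n)
      · rw [seg_length]
    · rintro ⟨σ, hσ, hx⟩
      obtain ⟨h3, h4⟩ := List.mem_filter.1 hσ
      have h5 : σ ∈ Ext c.1 := of_decide_eq_true h4
      obtain ⟨y, hy, hy2⟩ := h5
      rw [mem_allStr] at h3
      rw [h3] at hx hy2
      exact (hn y x (hy2.trans hx.symm)).1 hy
  · rintro ⟨l, hl⟩
    have hcl : IsClopen c.1 := by
      rw [hl]
      have : cylS l = ⋃ σ ∈ l.toFinset, cyl σ := by
        ext x
        simp [cylS, cyl]
      rw [this]
      exact isClopen_biUnion_finset fun σ _ => isClopen_cyl σ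
    refine ⟨⟨c.1ᶜ, IsPi01.of_clopen hcl.compl, Set.empty_subset _⟩, Subtype.ext ?_,
      Subtype.ext ?_⟩
    · exact Set.inter_compl_self _
    · exact Set.union_compl_self _

end Pool.Agent.H572R4
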