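import Pool.Agent.H572R4.Stmts

/-! Complexity of the alternating formulas (task E3). -/

set_option autoImplicit false

namespace Pool.Agent.H211R3.PI3

open Pool.Agent.Helper446.Defs Pool.Agent.Helper446.CB Pool.Agent.Helper446.CB.Ix
open Pool.Agent.Helper446
open Pool.Agent.H572R4

/-- some member of the list is an initial segment of `τ` -/
def MM (l : List (List Bool)) (τ : List Bool) : Prop := ∃ σ ∈ l, τ.take σ.length = σ

/-- all members of the list are at most as long as `τ` -/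
def LL (l : List (List Bool)) (τ : List Bool) : Prop := ∀ σ ∈ l, σ.length ≤ τ.length

theorem mem_iff {l : List (List Bool)} {x : ℕ → Bool} {N : ℕ} (hN : ∀ σ ∈ l, σ.length ≤ N) :
    x ∈ cylS l ↔ MM l (seg x N) := by
  constructor
  · rintro ⟨σ, hσ, h⟩
    exact ⟨σ, hσ, by rw [seg_take x (hN σ hσ)]; exact h⟩
  · rintro ⟨σ, hσ, h⟩
    rw [seg_take x (hN σ hσ)] at h
    exact ⟨σ, hσ, h⟩

theorem exists_pt (τ : List Bool) : ∃ x : ℕ → Bool, seg x τ.length = τ := by
  refine ⟨fun i => (τ[i]?).getD false, ?_⟩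
  unfold seg
  apply List.ext_getElem
  · simp
  · intro i h1 h2
    simp [h2]

theorem exists_bd (l : List (List Bool)) : ∃ N, ∀ σ ∈ l, σ.length ≤ N := by
  induction l with
  | nil => exact ⟨0, by simp⟩
  | cons a l ih =>
    obtain ⟨N, hN⟩ := ih
    refine ⟨max a.length N, fun σ hσ => ?_⟩
    rcases List.mem_cons.1 hσ with rfl | h
    · exact le_max_left _ _
    · exact (hN σ h).trans (le_max_right _ _)

theorem all_iff (φ : Prop → Prop → Prop → Prop) (l1 l2 l3 : List (List Bool)) :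
    (∀ x, φ (x ∈ cylS l1) (x ∈ cylS l2) (x ∈ cylS l3)) ↔
      ∀ τ, LL l1 τ → LL l2 τ → LL l3 τ → φ (MM l1 τ) (MM l2 τ) (MM l3 τ) := by
  constructor
  · intro h τ h1 h2 h3
    obtain ⟨x, hx⟩ := exists_pt τ
    have h4 := h x
    rw [mem_iff h1, mem_iff h2, mem_iff h3, hx] at h4
    exact h4
  · intro h x
    obtain ⟨N1, h1⟩ := exists_bd l1
    obtain ⟨N2, h2⟩ := exists_bd l2
    obtain ⟨N3, h3⟩ := exists_bd l3
    have g1 : ∀ σ ∈ l1, σ.length ≤ max N1 (max N2 N3) := fun σ hσ =>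
      (h1 σ hσ).trans (le_max_left _ _)
    have g2 : ∀ σ ∈ l2, σ.length ≤ max N1 (max N2 N3) := fun σ hσ =>
      (h2 σ hσ).trans ((le_max_left _ _).trans (le_max_right _ _))
    have g3 : ∀ σ ∈ l3, σ.length ≤ max N1 (max N2 N3) := fun σ hσ =>
      (h3 σ hσ).trans ((le_max_right _ _).trans (le_max_right _ _))
    rw [mem_iff g1, mem_iff g2, mem_iff g3]
    exact h _ (fun σ hσ => by rw [seg_length]; exact g1 σ hσ)
      (fun σ hσ => by rw [seg_length]; exact g2 σ hσ)
      (fun σ hσ => by rw [seg_length]; exact g3 σ hσ)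

theorem cp_MM {α : Type} [Primcodable α] {l : α → List (List Bool)} {τ : α → List Bool}
    (hl : Computable l) (hτ : Computable τ) : ComputablePred fun a => MM (l a) (τ a) := by
  refine cp_bex (p := fun (a : α) (σ : List Bool) => (τ a).take σ.length = σ) ?_ hl
  exact RE.cp_eq (f := fun x : α × List Bool => (τ x.1).take x.2.length)
    (ctake (hτ.comp Computable.fst) (by fun_prop)) Computable.snd

theorem cp_LL {α : Type} [Primcodable α] {l : α → List (List Bool)} {τ : α → List Bool}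
    (hl : Computable l) (hτ : Computable τ) : ComputablePred fun a => LL (l a) (τ a) := by
  refine cp_ball (p := fun (a : α) (σ : List Bool) => σ.length ≤ (τ a).length) ?_ hl
  refine RE.cp_le (f := fun x : α × List Bool => x.2.length)
    (g := fun x : α × List Bool => (τ x.1).length) (by fun_prop) ?_
  exact Primrec.list_length.to_comp.comp (hτ.comp Computable.fst)

abbrev LB2 : Type := List (List Bool)

theorem pi_inc : Pi 1 fun x : LB2 × LB2 => cylS x.1 ⊆ cylS x.2 := by
  have h : Pi 1 fun x : LB2 × LB2 => ∀ τ : List Bool,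
      (¬ LL x.1 τ ∨ ¬ LL x.2 τ) ∨ (¬ MM x.1 τ ∨ MM x.2 τ) := by
    refine Pi.all (n := 0) (p := fun (x : LB2 × LB2) (τ : List Bool) =>
      (¬ LL x.1 τ ∨ ¬ LL x.2 τ) ∨ (¬ MM x.1 τ ∨ MM x.2 τ)) (Pi.of_cp ?_)
    refine cp_or (cp_or ?_ ?_) (cp_or ?_ ?_)
    · exact (cp_LL (l := fun y : (LB2 × LB2) × List Bool => y.1.1) (by fun_prop)
        (by fun_prop)).not
    · exact (cp_LL (l := fun y : (LB2 × LB2) × List Bool => y.1.2) (by fun_prop)
        (by fun_prop)).not
    · exact (cp_MM (l := fun y : (LB2 × LB2) × List Bool => y.1.1) (by fun_prop)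
        (by fun_prop)).not
    · exact cp_MM (l := fun y : (LB2 × LB2) × List Bool => y.1.2) (by fun_prop) (by fun_prop)
  refine h.of_iff fun x => ?_
  have h2 := all_iff (fun a _ c => a → c) x.1 x.1 x.2
  have h3 : cylS x.1 ⊆ cylS x.2 ↔ ∀ z, z ∈ cylS x.1 → z ∈ cylS x.2 := Iff.rfl
  rw [h3, h2]
  refine forall_congr' fun τ => ?_
  tauto

/-- disjoint with union `l` -/
def DU (l1 l2 l : LB2) : Prop := ∀ z, ¬ (z ∈ cylS l1 ∧ z ∈ cylS l2) ∧
  ((z ∈ cylS l1 ∨ z ∈ cylS l2) ↔ z ∈ cylS l)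

theorem pi_DU : Pi 1 fun x : (LB2 × LB2) × LB2 => DU x.1.1 x.1.2 x.2 := by
  have h : Pi 1 fun x : (LB2 × LB2) × LB2 => ∀ τ : List Bool,
      ((¬ LL x.1.1 τ ∨ ¬ LL x.1.2 τ) ∨ ¬ LL x.2 τ) ∨
      ((¬ MM x.1.1 τ ∨ ¬ MM x.1.2 τ) ∧ (((¬ MM x.1.1 τ ∧ ¬ MM x.1.2 τ) ∨ MM x.2 τ) ∧
        (¬ MM x.2 τ ∨ (MM x.1.1 τ ∨ MM x.1.2 τ)))) := by
    refine Pi.all (n := 0) (p := fun (x : (LB2 × LB2) × LB2) (τ : List Bool) =>
      ((¬ LL x.1.1 τ ∨ ¬ LL x.1.2 τ) ∨ ¬ LL x.2 τ) ∨
      ((¬ MM x.1.1 τ ∨ ¬ MM x.1.2 τ) ∧ (((¬ MM x.1.1 τ ∧ ¬ MM x.1.2 τ) ∨ MM x.2 τ) ∧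
        (¬ MM x.2 τ ∨ (MM x.1.1 τ ∨ MM x.1.2 τ))))) (Pi.of_cp ?_)
    have a1 : ComputablePred fun y : ((LB2 × LB2) × LB2) × List Bool => LL y.1.1.1 y.2 :=
      cp_LL (by fun_prop) (by fun_prop)
    have a2 : ComputablePred fun y : ((LB2 × LB2) × LB2) × List Bool => LL y.1.1.2 y.2 :=
      cp_LL (by fun_prop) (by fun_prop)
    have a3 : ComputablePred fun y : ((LB2 × LB2) × LB2) × List Bool => LL y.1.2 y.2 :=
      cp_LL (by fun_prop) (by fun_prop)
    have b1 : ComputablePred fun y : ((LB2 × LB2) × LB2) × List Bool => MM y.1.1.1 y.2 :=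
      cp_MM (by fun_prop) (by fun_prop)
    have b2 : ComputablePred fun y : ((LB2 × LB2) × LB2) × List Bool => MM y.1.1.2 y.2 :=
      cp_MM (by fun_prop) (by fun_prop)
    have b3 : ComputablePred fun y : ((LB2 × LB2) × LB2) × List Bool => MM y.1.2 y.2 :=
      cp_MM (by fun_prop) (by fun_prop)
    exact cp_or (cp_or (cp_or a1.not a2.not) a3.not)
      (cp_and (cp_or b1.not b2.not) (cp_and (cp_or (cp_and b1.not b2.not) b3)
        (cp_or b3.not (cp_or b1 b2))))
  refine h.of_iff fun x => ?_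
  unfold DU
  rw [all_iff (fun a b c => ¬ (a ∧ b) ∧ ((a ∨ b) ↔ c)) x.1.1 x.1.2 x.2]
  refine forall_congr' fun τ => ?_
  tauto

theorem comp_getD' {α : Type} [Primcodable α] (k : ℕ) {f : α → List ℕ} (hf : Computable f) :
    Computable fun a => (f a).getD k 0 :=
  (comp_getD k).comp ((Computable.const 0).pair hf)

theorem taskE3 : TaskE3 := by
  intro h1 cy hcy hG k
  have hcp : ∀ c : LB eX, Cpl c ↔ ∃ l, c = cy l := by
    intro c
    rw [h1 c]
    exact exists_congr fun l => ⟨fun h => Subtype.ext (h.trans (hcy l).symm), fun h => by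
      rw [h]
      exact hcy l⟩
  induction k with
  | zero =>
    refine ⟨fun _ => ?_, fun h => absurd (by decide) h⟩
    exact (hG.comp (f := fun x : LB2 × List ℕ => (x.1, x.2.getD 0 0))
      (Computable.fst.pair (comp_getD' 0 Computable.snd))).not
  | succ k ih =>
    by_cases hk : Even k
    · refine ⟨fun h => absurd h (by rw [Nat.even_add_one]; exact not_not.2 hk), fun _ => ?_⟩
      have h2 : Sig (k + 2 + 1) fun x : LB2 × List ℕ => ∃ l' : LB2,
          cylS l' ⊆ cylS x.1 ∧ (Good (cy l') (ix (x.2.getD (k + 1) 0)) ∧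
            TT (fun i => ix (x.2.getD i 0)) k (cy l')) := by
        refine Sig.ex (p := fun (x : LB2 × List ℕ) (l' : LB2) =>
          cylS l' ⊆ cylS x.1 ∧ (Good (cy l') (ix (x.2.getD (k + 1) 0)) ∧
            TT (fun i => ix (x.2.getD i 0)) k (cy l'))) (Sig.and ?_ (Sig.and ?_ ?_))
        · exact Pi.toSig (by omega) (pi_inc.comp
            (f := fun y : (LB2 × List ℕ) × LB2 => (y.2, y.1.1)) (by fun_prop))
        · exact Sig.mono (by omega) (hG.comp
            (f := fun y : (LB2 × List ℕ) × LB2 => (y.2, y.1.2.getD (k + 1) 0))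
            (Computable.snd.pair (comp_getD' (k + 1) (by fun_prop))))
        · exact Pi.sig ((ih.1 hk).comp
            (f := fun y : (LB2 × List ℕ) × LB2 => (y.2, y.1.2)) (by fun_prop))
      refine h2.of_iff fun x => ?_
      constructor
      · rintro ⟨l', e1, e2, e3⟩
        refine ⟨fun _ => ⟨cy l', (hcp _).2 ⟨l', rfl⟩, ?_, e2, e3⟩, fun h => absurd hk h⟩
        rw [lb_le, hcy, hcy]
        exact e1
      · rintro ⟨h3, -⟩
        obtain ⟨c', e1, e2, e3, e4⟩ := h3 hk
        obtain ⟨l', rfl⟩ := (hcp _).1 e1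
        rw [lb_le, hcy, hcy] at e2
        exact ⟨l', e2, e3, e4⟩
    · refine ⟨fun _ => ?_, fun h => absurd (Nat.even_add_one.2 hk) h⟩
      have h2 : Pi (k + 2 + 1) fun x : LB2 × List ℕ => ∀ q : LB2 × LB2,
          DU q.1 q.2 x.1 → (Good (cy q.1) (ix (x.2.getD (k + 1) 0)) →
            TT (fun i => ix (x.2.getD i 0)) k (cy q.2)) := by
        refine Pi.all (p := fun (x : LB2 × List ℕ) (q : LB2 × LB2) =>
          DU q.1 q.2 x.1 → (Good (cy q.1) (ix (x.2.getD (k + 1) 0)) →
            TT (fun i => ix (x.2.getD i 0)) k (cy q.2))) (Pi.imp ?_ (Pi.imp ?_ ?_))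
        · exact Pi.toSig (by omega) (pi_DU.comp
            (f := fun y : (LB2 × List ℕ) × (LB2 × LB2) => (y.2, y.1.1)) (by fun_prop))
        · exact Sig.mono (by omega) (hG.comp
            (f := fun y : (LB2 × List ℕ) × (LB2 × LB2) => (y.2.1, y.1.2.getD (k + 1) 0))
            ((Computable.fst.comp Computable.snd).pair (comp_getD' (k + 1) (by fun_prop))))
        · exact Sig.pi ((ih.2 hk).comp
            (f := fun y : (LB2 × List ℕ) × (LB2 × LB2) => (y.2.2, y.1.2)) (by fun_prop))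
      refine h2.of_iff fun x => ?_
      constructor
      · intro h
        refine ⟨fun h' => absurd h' hk, fun _ => ?_⟩
        intro c' c'' e1 e2 e3 e4 e5
        obtain ⟨l', rfl⟩ := (hcp _).1 e1
        obtain ⟨l'', rfl⟩ := (hcp _).1 e2
        refine h (l', l'') ?_ e5
        have e3' := congrArg Subtype.val e3
        have e4' := congrArg Subtype.val e4
        rw [lb_inf, lb_bot, hcy, hcy] at e3'
        rw [lb_sup, hcy, hcy, hcy] at e4'
        intro z
        constructor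
        · intro hz
          have : z ∈ cylS l' ∩ cylS l'' := hz
          rw [e3'] at this
          exact this
        · have : (z ∈ cylS l' ∪ cylS l'') ↔ z ∈ cylS x.1 := by rw [e4']
          exact this
      · rintro ⟨-, h⟩ ⟨l', l''⟩ hd hg
        refine h hk (cy l') (cy l'') ((hcp _).2 ⟨l', rfl⟩) ((hcp _).2 ⟨l'', rfl⟩) ?_ ?_ hg
        · apply Subtype.ext
          rw [lb_inf, lb_bot, hcy, hcy]
          ext z
          constructor
          · intro hz
            exact absurd hz (hd z).1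
          · intro hz
            exact absurd hz (Set.notMem_empty z)
        · apply Subtype.ext
          rw [lb_sup, hcy, hcy, hcy]
          ext z
          exact (hd z).2

end Pool.Agent.H211R3.PI3
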