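import Pool.Agent.H168DD.PI.E5

/-!
Project H572-PI, task E4.
-/

set_option autoImplicit false

namespace Pool.Agent.H333R3.PI

open Encodable
open Pool.Agent.Helper446.Defs Pool.Agent.Helper446.CB Pool.Agent.Helper446.CB.Ix
open Pool.Agent.H572R4 Pool.Agent.Helper446

theorem clf_cylS : ClF 1 fun l : List (List Bool) => cylS l := by
  refine ⟨fun l σ => ∃ τ ∈ l, σ.take τ.length = τ.take σ.length, ?_, ?_⟩
  · refine Pi.of_cp ?_
    refine cp_bex (p := fun (x : List (List Bool) × List Bool) (τ : List Bool) =>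
      x.2.take τ.length = τ.take x.2.length) (RE.cp_eq ?_ ?_) (l := fun x => x.1) (by fun_prop)
    · exact ctake (by fun_prop) (by fun_prop)
    · exact ctake (by fun_prop) (by fun_prop)
  · intro l x
    constructor
    · rintro ⟨τ, hτ, h⟩ n
      refine ⟨τ, hτ, ?_⟩
      rw [seg_length]
      rcases le_total τ.length n with hn | hn
      · rw [seg_take x hn, h, List.take_of_length_le hn]
      · rw [List.take_of_length_le (by rw [seg_length]; exact hn)]
        conv_rhs => rw [← h]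
        rw [seg_take x hn]
    · intro h
      obtain ⟨τ, hτ, h⟩ := h ((l.map List.length).sum)
      have hle : τ.length ≤ (l.map List.length).sum :=
        List.single_le_sum (by simp) _ (List.mem_map.2 ⟨τ, hτ, rfl⟩)
      rw [seg_length, seg_take x hle, List.take_of_length_le hle] at h
      exact ⟨τ, hτ, h⟩

theorem exists_g (cy : List (List Bool) → LB eX) (hcy : ∀ l, (cy l).1 = cylS l) :
    ∃ g : List (List Bool) → ℕ, Computable g ∧ ∀ l, ix (g l) = cy l := by
  let K : ℕ → EPi := fun i => ⟨cylS (gd ([] : List (List Bool)) i), pi01_cylS _⟩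
  have hK : ClF 1 fun i => (K i).1 := clf_cylS.comp (gd_comp _)
  obtain ⟨f, hf, h⟩ := exists_index hK
  refine ⟨fun l => f (encode l), hf.comp Computable.encode, fun l => Subtype.ext ?_⟩
  show (idx (f (encode l))).1 = (cy l).1
  rw [h, hcy]
  show cylS (gd ([] : List (List Bool)) (encode l)) = cylS l
  rw [gd_encode]

theorem ale : Arith fun x : ℕ × ℕ => ix x.1 ≤ ix x.2 := arith_le

theorem ale' {α : Type} [Primcodable α] {f g : α → ℕ} (hf : Computable f) (hg : Computable g) :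
    Arith fun a => ix (f a) ≤ ix (g a) :=
  ale.comp (f := fun a => (f a, g a)) (hf.pair hg)

theorem ainf {α : Type} [Primcodable α] {f g h : α → ℕ} (hf : Computable f) (hg : Computable g)
    (hh : Computable h) : Arith fun a => ix (f a) ⊓ ix (g a) ≤ ix (h a) := by
  have h1 : Arith fun a => ∀ m : ℕ, ix m ≤ ix (f a) → ix m ≤ ix (g a) → ix m ≤ ix (h a) := by
    refine Arith.all (p := fun a (m : ℕ) => ix m ≤ ix (f a) → ix m ≤ ix (g a) → ix m ≤ ix (h a)) ?_
    exact Arith.imp (ale' Computable.snd (hf.comp Computable.fst))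
      (Arith.imp (ale' Computable.snd (hg.comp Computable.fst))
        (ale' Computable.snd (hh.comp Computable.fst)))
  refine h1.of_iff fun a => ⟨fun H => ?_, fun H m h2 h3 => (le_inf h2 h3).trans H⟩
  obtain ⟨m, hm⟩ := ix_surj (ix (f a) ⊓ ix (g a))
  rw [← hm]
  refine H m ?_ ?_
  · rw [hm]; exact inf_le_left
  · rw [hm]; exact inf_le_right

theorem abot {α : Type} [Primcodable α] {f : α → ℕ} (hf : Computable f) :
    Arith fun a => ix (f a) = ⊥ := by
  have h1 : Arith fun a => ∀ m : ℕ, ix (f a) ≤ ix m :=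
    Arith.all (p := fun a (m : ℕ) => ix (f a) ≤ ix m) (ale' (hf.comp Computable.fst) Computable.snd)
  refine h1.of_iff fun a => ⟨fun H => ?_, fun H m => by rw [H]; exact bot_le⟩
  obtain ⟨m, hm⟩ := ix_surj ⊥
  exact le_bot_iff.1 (by rw [← hm]; exact H m)

theorem aatom : Arith fun i : ℕ => IsAtom (ix i) := by
  have h1 : Arith fun i : ℕ => ¬ ix i = ⊥ ∧ ∀ k : ℕ, (ix k ≤ ix i ∧ ¬ ix i ≤ ix k) → ix k = ⊥ := by
    refine Arith.and (abot Computable.id).not ?_
    refine Arith.all (p := fun i (k : ℕ) => (ix k ≤ ix i ∧ ¬ ix i ≤ ix k) → ix k = ⊥) ?_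
    exact Arith.imp (Arith.and (ale' Computable.snd Computable.fst)
      (ale' Computable.fst Computable.snd).not) (abot Computable.snd)
  refine h1.of_iff fun i => ?_
  constructor
  · rintro ⟨h, h'⟩
    refine ⟨h, fun b hb => ?_⟩
    obtain ⟨k, rfl⟩ := ix_surj b
    exact h' k ⟨hb.le, fun hh => absurd (lt_of_lt_of_le hb hh) (lt_irrefl _)⟩
  · rintro ⟨h, h'⟩
    exact ⟨h, fun k hk => h' _ (lt_of_le_not_ge hk.1 hk.2)⟩

theorem ann (e1 : TaskE1) (cy : List (List Bool) → LB eX) (hcy : ∀ l, (cy l).1 = cylS l) :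
    Arith fun x : (ℕ × ℕ) × ℕ => NN (ix x.1.1) (ix x.1.2) x.2 := by
  obtain ⟨g, hg, hgc⟩ := exists_g cy hcy
  have h1 : Arith fun x : (ℕ × ℕ) × ℕ => ∃ D : List ℕ, D.length = x.2 ∧
      (∀ d : ℕ, d ∈ D → ix d ≤ ix x.1.1) ∧
      (∀ ij : ℕ × ℕ, ij.1 < ij.2 → ij.2 < D.length →
        ix ((D[ij.1]?).getD 0) ⊓ ix ((D[ij.2]?).getD 0) ≤ ix x.1.2) ∧
      ∀ d : ℕ, d ∈ D → ∀ l : List (List Bool), ix x.1.2 ≤ ix (g l) →
        ¬ (ix (g l) ⊓ ix d ≤ ix x.1.2) := by
    refine Arith.ex (p := fun (x : (ℕ × ℕ) × ℕ) (D : List ℕ) => D.length = x.2 ∧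
      (∀ d : ℕ, d ∈ D → ix d ≤ ix x.1.1) ∧
      (∀ ij : ℕ × ℕ, ij.1 < ij.2 → ij.2 < D.length →
        ix ((D[ij.1]?).getD 0) ⊓ ix ((D[ij.2]?).getD 0) ≤ ix x.1.2) ∧
      ∀ d : ℕ, d ∈ D → ∀ l : List (List Bool), ix x.1.2 ≤ ix (g l) →
        ¬ (ix (g l) ⊓ ix d ≤ ix x.1.2)) ?_
    refine Arith.and ?_ (Arith.and ?_ (Arith.and ?_ ?_))
    · exact Arith.of_cp (RE.cp_eq (by fun_prop) (by fun_prop))
    · refine Arith.all (p := fun (y : ((ℕ × ℕ) × ℕ) × List ℕ) (d : ℕ) =>
        d ∈ y.2 → ix d ≤ ix y.1.1.1) (Arith.imp ?_ ?_)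
      · exact Arith.of_cp (RE.cp_mem (by fun_prop) (by fun_prop))
      · exact ale' (by fun_prop) (by fun_prop)
    · refine Arith.all (p := fun (y : ((ℕ × ℕ) × ℕ) × List ℕ) (ij : ℕ × ℕ) =>
        ij.1 < ij.2 → ij.2 < y.2.length →
        ix ((y.2[ij.1]?).getD 0) ⊓ ix ((y.2[ij.2]?).getD 0) ≤ ix y.1.1.2) (Arith.imp ?_
          (Arith.imp ?_ ?_))
      · exact ⟨1, sig_one.2 (RE.lt (by fun_prop) (by fun_prop))⟩
      · exact ⟨1, sig_one.2 (RE.lt (by fun_prop) (by fun_prop))⟩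
      · refine ainf ?_ ?_ (by fun_prop)
        · exact Computable.option_getD (by fun_prop) (by fun_prop)
        · exact Computable.option_getD (by fun_prop) (by fun_prop)
    · refine Arith.all (p := fun (y : ((ℕ × ℕ) × ℕ) × List ℕ) (d : ℕ) =>
        d ∈ y.2 → ∀ l : List (List Bool), ix y.1.1.2 ≤ ix (g l) →
        ¬ (ix (g l) ⊓ ix d ≤ ix y.1.1.2)) (Arith.imp ?_ ?_)
      · exact Arith.of_cp (RE.cp_mem (by fun_prop) (by fun_prop))
      · refine Arith.all (p := fun (z : (((ℕ × ℕ) × ℕ) × List ℕ) × ℕ) (l : List (List Bool)) =>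
          ix z.1.1.1.2 ≤ ix (g l) → ¬ (ix (g l) ⊓ ix z.2 ≤ ix z.1.1.1.2)) (Arith.imp ?_ ?_)
        · exact ale' (by fun_prop) (hg.comp Computable.snd)
        · exact (ainf (hg.comp Computable.snd) (by fun_prop) (by fun_prop)).not
  refine h1.of_iff fun x => ?_
  constructor
  · rintro ⟨D, hD, h2, h3, h4⟩
    refine ⟨D.map ix, by simpa using hD, ?_, ?_, ?_⟩
    · intro d hd
      obtain ⟨d', hd', rfl⟩ := List.mem_map.1 hd
      exact h2 d' hd'
    · rw [List.pairwise_map, List.pairwise_iff_getElem]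
      intro i j hi hj hij
      have := h3 (i, j) hij hj
      simpa [List.getElem?_eq_getElem hi, List.getElem?_eq_getElem hj] using this
    · intro d hd c hc hac
      obtain ⟨d', hd', rfl⟩ := List.mem_map.1 hd
      obtain ⟨l, hl⟩ := (e1 c).1 hc
      have hcl : c = ix (g l) := by rw [hgc]; exact Subtype.ext (by rw [hl, hcy l])
      rw [hcl] at hac ⊢
      exact h4 d' hd' l hac
  · rintro ⟨D, hD, h2, h3, h4⟩
    choose v hv using ix_surj
    have hDv : D = (D.map v).map ix := by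
      rw [List.map_map]
      conv_lhs => rw [← List.map_id D]
      refine List.map_congr_left fun a _ => ?_
      simp [hv]
    refine ⟨D.map v, by simpa using hD, ?_, ?_, ?_⟩
    · intro d hd
      obtain ⟨d', hd', rfl⟩ := List.mem_map.1 hd
      rw [hv]; exact h2 d' hd'
    · rintro ⟨i, j⟩ hij hj
      simp only [List.length_map] at hj
      have hi : i < D.length := lt_trans hij hj
      have h5 := List.pairwise_iff_getElem.1 h3 i j hi hj hij
      simpa [List.getElem?_map, List.getElem?_eq_getElem hi, List.getElem?_eq_getElem hj, hv]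
        using h5
    · intro d hd l hal
      obtain ⟨d', hd', rfl⟩ := List.mem_map.1 hd
      rw [hv]
      exact h4 d' hd' _ ((e1 _).2 ⟨l, by rw [hgc, hcy]⟩) hal

theorem taskE4 : TaskE4 := by
  intro e1 cy hcy
  obtain ⟨g, hg, hgc⟩ := exists_g cy hcy
  have hnn := ann e1 cy hcy
  have h1 : Arith fun x : (ℕ × ℕ) × (ℕ × List (List Bool)) => ∀ a : ℕ, IsAtom (ix a) →
      ix a ≤ ix x.1.1 → ix a ≤ ix (g x.2.2) →
      NN (ix x.1.2) (ix a) x.2.1 ∧ ¬ NN (ix x.1.2) (ix a) (x.2.1 + 1) := by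
    refine Arith.all (p := fun (x : (ℕ × ℕ) × (ℕ × List (List Bool))) (a : ℕ) => IsAtom (ix a) →
      ix a ≤ ix x.1.1 → ix a ≤ ix (g x.2.2) →
      NN (ix x.1.2) (ix a) x.2.1 ∧ ¬ NN (ix x.1.2) (ix a) (x.2.1 + 1)) ?_
    refine Arith.imp (aatom.comp Computable.snd) (Arith.imp (ale' (by fun_prop) (by fun_prop))
      (Arith.imp (ale' (by fun_prop) (hg.comp (by fun_prop))) (Arith.and ?_ (Arith.not ?_))))
    · exact hnn.comp (f := fun y : ((ℕ × ℕ) × (ℕ × List (List Bool))) × ℕ =>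
        ((y.1.1.2, y.2), y.1.2.1)) (by fun_prop)
    · exact hnn.comp (f := fun y : ((ℕ × ℕ) × (ℕ × List (List Bool))) × ℕ =>
        ((y.1.1.2, y.2), y.1.2.1 + 1)) (by fun_prop)
  refine h1.of_iff fun x => ?_
  rw [← hgc]
  constructor
  · intro h a ha hle
    obtain ⟨i, rfl⟩ := ix_surj a
    exact h i ha (hle.trans inf_le_left) (hle.trans inf_le_right)
  · intro h a ha h2 h3
    exact h (ix a) ha (le_inf h2 h3)

end Pool.Agent.H333R3.PI
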