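import Pool.Agent.H572R4.Stmts

/-!
Project H572-PI, task E5.
-/

set_option autoImplicit false

namespace Pool.Agent.H333R3.PI

open Pool.Agent.Helper446.Defs Pool.Agent.Helper446.CB Pool.Agent.Helper446.CB.Ix
open Pool.Agent.H572R4

theorem pi01_cyl (σ : List Bool) : IsPi01 {x : ℕ → Bool | seg x σ.length = σ} := by
  refine IsPi01.of_clopen (clopen_iff.2 ⟨σ.length, fun x y h => ?_⟩)
  simp only [Set.mem_ofPred_eq]
  rw [h]

theorem pi01_cylS (l : List (List Bool)) : IsPi01 (cylS l) := by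
  induction l with
  | nil =>
    have : cylS [] = ∅ := by
      ext x; simp [cylS]
    rw [this]; exact IsPi01.empty
  | cons σ l ih =>
    have : cylS (σ :: l) = {x : ℕ → Bool | seg x σ.length = σ} ∪ cylS l := by
      ext x
      simp [cylS]
    rw [this]
    exact IsPi01.union (pi01_cyl σ) ih

theorem taskE5 : TaskE5 := by
  intro e1 e2 e3 e4
  have hcy : ∀ l : List (List Bool), ∃ c : LB eX, c.1 = cylS l := fun l =>
    ⟨⟨cylS l, pi01_cylS l, Set.empty_subset _⟩, rfl⟩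
  choose cy hcy using hcy
  obtain ⟨m, hm⟩ := e4 e1 cy hcy
  have h2 := e2 e1 cy hcy
  have h3 := (e3 e1 cy hcy h2 (2 * m)).1 (even_two_mul m)
  refine ⟨2 * m, even_two_mul m, ?_⟩
  have key : Sig (2 * m + 3) fun x : ((ℕ × ℕ) × List ℕ) × ℕ => ∃ l : List (List Bool),
      Mark (ix x.1.1.1) (ix x.1.1.2) x.2 (cy l) ∧
        TT (fun i => ix (x.1.2.getD i 0)) (2 * m) (cy l) := by
    refine Sig.ex (n := 2 * m + 2) (p := fun (x : ((ℕ × ℕ) × List ℕ) × ℕ) (l : List (List Bool)) =>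
      Mark (ix x.1.1.1) (ix x.1.1.2) x.2 (cy l) ∧
        TT (fun i => ix (x.1.2.getD i 0)) (2 * m) (cy l)) ?_
    refine Pi.sig (Pi.and ?_ ?_)
    · exact Pi.comp (Sig.toPi (m := 2 * m + 2) (by omega) hm)
        (f := fun y : (((ℕ × ℕ) × List ℕ) × ℕ) × List (List Bool) =>
          ((y.1.1.1.1, y.1.1.1.2), (y.1.2, y.2))) (by fun_prop)
    · exact Pi.comp h3 (f := fun y : (((ℕ × ℕ) × List ℕ) × ℕ) × List (List Bool) =>
        (y.2, y.1.1.2)) (by fun_prop)
  refine key.of_iff fun x => ?_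
  constructor
  · rintro ⟨l, h, h'⟩
    exact ⟨cy l, (e1 (cy l)).2 ⟨l, hcy l⟩, h, h'⟩
  · rintro ⟨c, hc, h, h'⟩
    obtain ⟨l, hl⟩ := (e1 c).1 hc
    have hcl : c = cy l := Subtype.ext (by rw [hl, hcy l])
    rw [hcl] at h h'
    exact ⟨l, h, h'⟩

end Pool.Agent.H333R3.PI
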