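import Pool.Agent.H572R4.Stmts

/-!
Project H572-PI: immunity of cohesive sets.
-/

set_option autoImplicit false

namespace Pool.Agent.H572R4

open Pool.Agent.Helper446 Pool.Agent.Helper446.Defs Pool.Agent.Helper446.CB
  Pool.Agent.Helper446.CB.Ix

theorem immH512 : ∀ C : Set ℕ, CohS C → ∀ W : Set ℕ, REPred (fun x => x ∈ W) → W ⊆ C →
    W.Finite := by
  classical
  intro C hC W hW hWC
  by_contra hcon
  have hinf : W.Infinite := hcon
  obtain ⟨f, hf, hf1, hf2⟩ := RE.uniformize (r := fun a b : ℕ => b ∈ W ∧ a < b) (by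
    refine RE.and (RE.comp hW (Computable.snd (α := ℕ) (β := ℕ))) ?_
    exact RE.lt Computable.fst Computable.snd)
  have hdom : ∀ a, (f a).Dom := fun a => (hf1 a).2 (by
    obtain ⟨b, hb, hab⟩ := hinf.exists_gt a
    exact ⟨b, hb, hab⟩)
  obtain ⟨g, hg⟩ : ∃ g : ℕ → ℕ, ∀ a, f a = Part.some (g a) :=
    ⟨fun a => (f a).get (hdom a), fun a => (Part.some_get (hdom a)).symm⟩
  have hgc : Computable g := hf.of_eq hg
  have hgW : ∀ a, g a ∈ W ∧ a < g a := fun a => hf2 a (g a) (by rw [hg a]; exact Part.mem_some _)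
  obtain ⟨F, hF0, hFs, hFc⟩ : ∃ F : ℕ → ℕ, F 0 = g 0 ∧ (∀ n, F (n + 1) = g (F n)) ∧
      Computable F := by
    refine ⟨fun n => Nat.rec (motive := fun _ => ℕ) (g 0) (fun _ r => g r) n, rfl,
      fun n => rfl, ?_⟩
    have := Computable.nat_rec (f := fun n : ℕ => n) (g := fun _ : ℕ => g 0)
      (h := fun _ p => g p.2) Computable.id (Computable.const _)
      ((hgc.comp (Computable.snd.comp Computable.snd)).to₂)
    exact this
  have hFW : ∀ n, F n ∈ W := by
    intro n
    cases n with
    | zero => rw [hF0]; exact (hgW 0).1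
    | succ n => rw [hFs]; exact (hgW _).1
  have hmono : StrictMono F := strictMono_nat_of_lt_succ fun n => by
    rw [hFs]
    exact (hgW _).2
  have hX : REPred fun x : ℕ => x ∈ ({x : ℕ | ∃ n : ℕ, F (2 * n) = x} : Set ℕ) := by
    refine RE.exN (p := fun x n : ℕ => F (2 * n) = x) ?_
    refine RE.eq (hFc.comp ?_) Computable.fst
    exact (Primrec.nat_mul.to_comp).comp (Computable.const 2) Computable.snd
  rcases hC.2.2 _ hX with h | h
  · have h1 : (C ∩ {x : ℕ | ∃ n : ℕ, F (2 * n) = x}).Infinite :=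
      Set.infinite_of_injective_forall_mem (f := fun n : ℕ => F (2 * n))
        (fun a b hab => by
          have := hmono.injective hab
          omega)
        (fun n => ⟨hWC (hFW _), n, rfl⟩)
    exact h1 h
  · have h1 : (C \ {x : ℕ | ∃ n : ℕ, F (2 * n) = x}).Infinite :=
      Set.infinite_of_injective_forall_mem (f := fun n : ℕ => F (2 * n + 1))
        (fun a b hab => by
          have := hmono.injective hab
          omega)
        (fun n => ⟨hWC (hFW _), fun ⟨m, hm⟩ => by
          have := hmono.injective hm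
          omega⟩)
    exact h1 h

end Pool.Agent.H572R4
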